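import Pool.Agent.H223.EM.Defs
import Pool.Agent.H777R2.SM_T6D

set_option autoImplicit false

/-!
T7b of the eighth moment project: decay of the Voronoi kernel.
-/

namespace Pool.Agent.H61R2.EM

open Finset Filter Topology MeasureTheory Complex
open Pool.Agent.H306R2 Pool.Agent.H306R2.SM Pool.Agent.H223.EM

/-- `x cosh x ≤ (1+x) sinh x` for `x ≥ 0` -/
theorem mul_cosh_le (x : ℝ) (hx : 0 ≤ x) : x * Real.cosh x ≤ (1 + x) * Real.sinh x := by
  have h1 : x ≤ Real.sinh x := Real.self_le_sinh_iff.2 hx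
  have h2 : x * Real.cosh x - x * Real.sinh x = x * Real.exp (-x) := by
    rw [← mul_sub, Real.cosh_sub_sinh]
  have h3 : Real.exp (-x) ≤ 1 := Real.exp_le_one_iff.2 (by linarith)
  nlinarith [mul_le_mul_of_nonneg_left h3 hx]

theorem norm_sq_Gamma_one (t : ℝ) (ht : t ≠ 0) :
    ‖Complex.Gamma (1 + t * I)‖ ^ 2 * Real.sinh (Real.pi * t) = Real.pi * t := by
  have h0 : ((t : ℂ) * I) ≠ 0 := mul_ne_zero (by exact_mod_cast ht) I_ne_zero
  have h1 : Complex.Gamma (1 + t * I) = (t * I) * Complex.Gamma (t * I) := by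
    rw [add_comm, Complex.Gamma_add_one _ h0]
  have h2 := Complex.Gamma_mul_Gamma_one_sub ((t : ℂ) * I)
  have h3 : (1 : ℂ) - t * I = (starRingEnd ℂ) (1 + t * I) := by
    simp [sub_eq_add_neg]
  have h4 : ((‖Complex.Gamma (1 + t * I)‖ ^ 2 : ℝ) : ℂ) =
      Complex.Gamma (1 + t * I) * Complex.Gamma (1 - t * I) := by
    rw [h3, Complex.Gamma_conj, Complex.mul_conj, Complex.normSq_eq_norm_sq]
  have hs : Complex.sin ((Real.pi : ℂ) * (t * I)) = ((Real.sinh (Real.pi * t) : ℝ) : ℂ) * I := by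
    rw [← mul_assoc, Complex.sin_mul_I]
    push_cast
    rfl
  have hsne : (Real.sinh (Real.pi * t)) ≠ 0 := by
    rw [Ne, Real.sinh_eq_zero]
    exact mul_ne_zero Real.pi_ne_zero ht
  have h5 : ((‖Complex.Gamma (1 + t * I)‖ ^ 2 * Real.sinh (Real.pi * t) : ℝ) : ℂ) =
      ((Real.pi * t : ℝ) : ℂ) := by
    rw [Complex.ofReal_mul, h4, h1, mul_assoc ((t : ℂ) * I), h2, hs]
    have hsne' : ((Real.sinh (Real.pi * t) : ℝ) : ℂ) ≠ 0 := by exact_mod_cast hsne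
    have hI := I_ne_zero
    rw [Complex.ofReal_mul]
    field_simp
  exact_mod_cast h5

theorem norm_sq_Gamma_one_le (t : ℝ) :
    ‖Complex.Gamma (1 + t * I)‖ ^ 2 * Real.cosh (Real.pi * t) ≤ 1 + Real.pi * |t| := by
  have key : ∀ t : ℝ, 0 < t →
      ‖Complex.Gamma (1 + t * I)‖ ^ 2 * Real.cosh (Real.pi * t) ≤ 1 + Real.pi * t := by
    intro t ht
    have h1 := norm_sq_Gamma_one t ht.ne'
    have hpt : 0 < Real.pi * t := mul_pos Real.pi_pos ht
    have h2 : 0 < Real.sinh (Real.pi * t) := Real.sinh_pos_iff.2 hpt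
    have h3 := mul_cosh_le (Real.pi * t) hpt.le
    have h4 : (‖Complex.Gamma (1 + t * I)‖ ^ 2 * Real.cosh (Real.pi * t)) * Real.sinh (Real.pi * t) ≤
        (1 + Real.pi * t) * Real.sinh (Real.pi * t) := by
      calc _ = (‖Complex.Gamma (1 + t * I)‖ ^ 2 * Real.sinh (Real.pi * t)) *
            Real.cosh (Real.pi * t) := by ring
        _ = Real.pi * t * Real.cosh (Real.pi * t) := by rw [h1]
        _ ≤ _ := h3
    exact le_of_mul_le_mul_right h4 h2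
  rcases lt_trichotomy t 0 with h | h | h
  · have h1 := key (-t) (by linarith)
    have h2 : (1 : ℂ) + ((-t : ℝ) : ℂ) * I = (starRingEnd ℂ) (1 + t * I) := by
      simp
    rw [h2, Complex.Gamma_conj, Complex.norm_conj, mul_neg, Real.cosh_neg] at h1
    rw [abs_of_neg h, mul_neg]
    exact h1
  · subst h
    simp
  · rw [abs_of_pos h]
    exact key t h

theorem norm_sq_Gamma_nat_le (B : ℕ) (t : ℝ) :
    ‖Complex.Gamma (1 + t * I + B)‖ ^ 2 * Real.cosh (Real.pi * t) ≤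
      4 * ((B : ℝ) + 1) ^ (2 * B) * (1 + |t|) ^ (2 * B + 1) := by
  have h1 := Pool.Agent.H777R2.SM.Gamma_shift (1 + t * I) (by simp) B
  have h2 : ‖∏ j ∈ range B, (1 + (t : ℂ) * I + j)‖ ≤ (((B : ℝ) + 1) * (1 + |t|)) ^ B := by
    rw [norm_prod]
    calc ∏ j ∈ range B, ‖1 + (t : ℂ) * I + j‖ ≤ ∏ _j ∈ range B, (((B : ℝ) + 1) * (1 + |t|)) := by
          apply Finset.prod_le_prod
          · intro j _; exact norm_nonneg _
          · intro j hj
            have hj' : (j : ℝ) + 1 ≤ B := by exact_mod_cast Finset.mem_range.1 hj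
            have h3 : ‖1 + (t : ℂ) * I + j‖ ≤ ‖(1 : ℂ)‖ + ‖(t : ℂ) * I‖ + ‖(j : ℂ)‖ :=
              norm_add₃_le
            simp only [norm_one, norm_mul, Complex.norm_real, Complex.norm_I, mul_one,
              Complex.norm_natCast, Real.norm_eq_abs] at h3
            have ht : 0 ≤ |t| := abs_nonneg t
            have hB : (0 : ℝ) ≤ B := Nat.cast_nonneg B
            nlinarith [mul_nonneg hB ht]
      _ = _ := by rw [Finset.prod_const, Finset.card_range]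
  rw [h1, norm_mul, mul_pow]
  have h4 := norm_sq_Gamma_one_le t
  have h5 : 1 + Real.pi * |t| ≤ 4 * (1 + |t|) := by
    nlinarith [Real.pi_lt_four, abs_nonneg t, Real.pi_pos]
  calc ‖∏ j ∈ range B, (1 + (t : ℂ) * I + j)‖ ^ 2 * ‖Complex.Gamma (1 + t * I)‖ ^ 2 *
        Real.cosh (Real.pi * t) = ‖∏ j ∈ range B, (1 + (t : ℂ) * I + j)‖ ^ 2 *
        (‖Complex.Gamma (1 + t * I)‖ ^ 2 * Real.cosh (Real.pi * t)) := by ring
    _ ≤ ((((B : ℝ) + 1) * (1 + |t|)) ^ B) ^ 2 * (4 * (1 + |t|)) :=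
        mul_le_mul (pow_le_pow_left₀ (norm_nonneg _) h2 2) (h4.trans h5)
          (mul_nonneg (by positivity) (Real.cosh_pos _).le) (by positivity)
    _ = _ := by
        rw [mul_pow, mul_pow]
        ring

theorem norm_cos_le (z : ℂ) : ‖Complex.cos z‖ ≤ Real.cosh z.im := by
  rw [Complex.cos, norm_div, Real.cosh_eq]
  have h1 : ‖Complex.exp (z * I) + Complex.exp (-z * I)‖ ≤ Real.exp z.im + Real.exp (-z.im) := by
    refine (norm_add_le _ _).trans (le_of_eq ?_)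
    rw [Complex.norm_exp, Complex.norm_exp]
    simp
    ring
  simpa using div_le_div_of_nonneg_right h1 (by norm_num : (0 : ℝ) ≤ 2)

theorem norm_cs_le (i : Fin 2) (s : ℂ) : ‖cs i s‖ ≤ Real.cosh (Real.pi * s.im) := by
  unfold cs
  split_ifs
  · simpa using Real.one_le_cosh _
  · rw [norm_neg]
    have := norm_cos_le ((Real.pi : ℂ) * s)
    simpa using this

theorem kap_bound (B : ℕ) (i : Fin 2) (k : ℕ) (hk : B + 1 ≤ k) (t : ℝ) :
    ‖kap i k (((-(B : ℝ) : ℝ) : ℂ) + t * I)‖ ≤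
      (4 ^ (2 * B + 3) * (4 * ((B : ℝ) + 1) ^ (2 * B)) * ((B : ℝ) + 3) ^ (B + 2)) *
        (k : ℝ) ^ (B + 2) * (k.factorial : ℝ) * (1 + ‖t‖) ^ (-(2 : ℝ)) := by
  have hk' : (B : ℝ) + 1 ≤ k := by exact_mod_cast hk
  have hB : (0 : ℝ) ≤ B := Nat.cast_nonneg B
  set s : ℂ := ((-(B : ℝ) : ℝ) : ℂ) + t * I with hs
  have hsim : s.im = t := by simp [hs]
  have h1 : ‖Complex.Gamma (s + k)‖ ≤
      4 ^ (2 * B + 3) * Real.Gamma ((k : ℝ) + B + 3) / (1 + |t|) ^ (2 * B + 3) := by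
    have h := Pool.Agent.H777R2.SM.norm_Gamma_decay (s + k) (by simp [hs]; linarith) (2 * B + 3)
    have e1 : (s + k).re + ((2 * B + 3 : ℕ) : ℝ) = (k : ℝ) + B + 3 := by
      simp [hs]; ring
    have e2 : (s + k).im = t := by simp [hs]
    rw [e1, e2] at h
    exact h
  have h2 : Real.Gamma ((k : ℝ) + B + 3) ≤
      ((B : ℝ) + 3) ^ (B + 2) * (k : ℝ) ^ (B + 2) * (k.factorial : ℝ) := by
    have e1 : Real.Gamma ((k : ℝ) + B + 3) = ((k + (B + 2)).factorial : ℝ) := by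
      rw [← Real.Gamma_nat_eq_factorial]
      congr 1
      push_cast
      ring
    have h5 : (((k + (B + 2)).factorial : ℕ) : ℝ) ≤ (k.factorial : ℝ) * ((k : ℝ) + (B + 2)) ^ (B + 2) := by
      have h6 : (k + (B + 2)).factorial ≤ k.factorial * (k + (B + 2)) ^ (B + 2) := by
        rw [← Nat.factorial_mul_ascFactorial]
        exact Nat.mul_le_mul_left _ (Nat.ascFactorial_le_pow_add k (B + 2))
      exact_mod_cast h6
    have h6 : ((k : ℝ) + (B + 2)) ^ (B + 2) ≤ (((B : ℝ) + 3) * (k : ℝ)) ^ (B + 2) := by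
      apply pow_le_pow_left₀ (by positivity)
      nlinarith
    rw [e1]
    refine h5.trans ?_
    calc (k.factorial : ℝ) * ((k : ℝ) + (B + 2)) ^ (B + 2) ≤
          (k.factorial : ℝ) * (((B : ℝ) + 3) * (k : ℝ)) ^ (B + 2) := by gcongr
      _ = _ := by rw [mul_pow]; ring
  have h3 : ‖Complex.Gamma (1 - s)‖ ^ 2 * Real.cosh (Real.pi * t) ≤
      4 * ((B : ℝ) + 1) ^ (2 * B) * (1 + |t|) ^ (2 * B + 1) := by
    have h := norm_sq_Gamma_nat_le B (-t)
    have e1 : (1 : ℂ) + ((-t : ℝ) : ℂ) * I + B = 1 - s := by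
      rw [hs]; push_cast; ring
    rw [e1, mul_neg, Real.cosh_neg, abs_neg] at h
    exact h
  have h4 : ‖cs i s‖ ≤ Real.cosh (Real.pi * t) := by
    have := norm_cs_le i s
    rwa [hsim] at this
  have hG0 : 0 ≤ Real.Gamma ((k : ℝ) + B + 3) := (Real.Gamma_pos_of_pos (by positivity)).le
  have hpos : 0 < 1 + |t| := by positivity
  have e3 : (1 + ‖t‖) ^ (-(2 : ℝ)) = 1 / (1 + |t|) ^ 2 := by
    rw [Real.rpow_neg (by positivity), Real.norm_eq_abs, one_div]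
    norm_cast
  rw [kap, norm_mul, norm_mul, norm_pow]
  calc ‖Complex.Gamma (s + k)‖ * ‖Complex.Gamma (1 - s)‖ ^ 2 * ‖cs i s‖ ≤
        ‖Complex.Gamma (s + k)‖ * ‖Complex.Gamma (1 - s)‖ ^ 2 * Real.cosh (Real.pi * t) := by gcongr
    _ = ‖Complex.Gamma (s + k)‖ * (‖Complex.Gamma (1 - s)‖ ^ 2 * Real.cosh (Real.pi * t)) := by ring
    _ ≤ (4 ^ (2 * B + 3) * Real.Gamma ((k : ℝ) + B + 3) / (1 + |t|) ^ (2 * B + 3)) *
        (4 * ((B : ℝ) + 1) ^ (2 * B) * (1 + |t|) ^ (2 * B + 1)) := by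
        gcongr
    _ ≤ (4 ^ (2 * B + 3) * (((B : ℝ) + 3) ^ (B + 2) * (k : ℝ) ^ (B + 2) * (k.factorial : ℝ)) /
          (1 + |t|) ^ (2 * B + 3)) *
        (4 * ((B : ℝ) + 1) ^ (2 * B) * (1 + |t|) ^ (2 * B + 1)) := by
        gcongr
    _ = _ := by
        rw [e3]
        field_simp
        ring

/-- T7b. decay of the kernel -/
theorem Kc_tail (B : ℕ) : ∃ C : ℝ, ∃ A : ℕ, 0 < C ∧ ∀ (i : Fin 2) (k : ℕ), B + 1 ≤ k → ∀ x : ℝ, 0 < x →
    ‖Kc i k (-(B : ℝ)) x‖ ≤ C * (k : ℝ) ^ A * (k.factorial : ℝ) * x ^ (-(B : ℝ)) := by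
  set W : ℝ := ∫ t : ℝ, (1 + ‖t‖) ^ (-(2 : ℝ)) with hW
  have hW0 : 0 ≤ W := integral_nonneg fun t => by positivity
  set C₀ : ℝ := 4 ^ (2 * B + 3) * (4 * ((B : ℝ) + 1) ^ (2 * B)) * ((B : ℝ) + 3) ^ (B + 2) with hC₀
  have hC₀0 : 0 < C₀ := by positivity
  refine ⟨1 / (2 * Real.pi) * (C₀ * W) + 1, B + 2, by positivity, ?_⟩
  intro i k hk x hx
  have h1 : ‖∫ t : ℝ, kap i k (((-(B : ℝ) : ℝ) : ℂ) + t * I) * (x : ℂ) ^ (((-(B : ℝ) : ℝ) : ℂ) + t * I)‖ ≤
      ∫ t : ℝ, (C₀ * (k : ℝ) ^ (B + 2) * (k.factorial : ℝ) * x ^ (-(B : ℝ))) *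
        (1 + ‖t‖) ^ (-(2 : ℝ)) := by
    apply norm_integral_le_of_norm_le
    · exact Pool.Agent.H777R2.SM.integrable_weight.const_mul _
    · filter_upwards with t
      rw [norm_mul, Complex.norm_cpow_eq_rpow_re_of_pos hx]
      have e : (((-(B : ℝ) : ℝ) : ℂ) + t * I).re = -(B : ℝ) := by simp
      rw [e]
      have h := kap_bound B i k hk t
      have hx0 : 0 ≤ x ^ (-(B : ℝ)) := (Real.rpow_pos_of_pos hx _).le
      calc _ ≤ (C₀ * (k : ℝ) ^ (B + 2) * (k.factorial : ℝ) * (1 + ‖t‖) ^ (-(2 : ℝ))) *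
            x ^ (-(B : ℝ)) := by gcongr
        _ = _ := by ring
  rw [integral_const_mul, ← hW] at h1
  rw [Kc, norm_mul, Complex.norm_real, Real.norm_of_nonneg (by positivity)]
  have hx0 : 0 < x ^ (-(B : ℝ)) := Real.rpow_pos_of_pos hx _
  calc 1 / (2 * Real.pi) * ‖∫ t : ℝ, kap i k (((-(B : ℝ) : ℝ) : ℂ) + t * I) *
        (x : ℂ) ^ (((-(B : ℝ) : ℝ) : ℂ) + t * I)‖ ≤ 1 / (2 * Real.pi) *
        ((C₀ * (k : ℝ) ^ (B + 2) * (k.factorial : ℝ) * x ^ (-(B : ℝ))) * W) := by gcongr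
    _ = (1 / (2 * Real.pi) * (C₀ * W)) * ((k : ℝ) ^ (B + 2) * (k.factorial : ℝ) * x ^ (-(B : ℝ))) := by
        ring
    _ ≤ (1 / (2 * Real.pi) * (C₀ * W) + 1) *
        ((k : ℝ) ^ (B + 2) * (k.factorial : ℝ) * x ^ (-(B : ℝ))) := by
        gcongr
        linarith
    _ = _ := by ring

end Pool.Agent.H61R2.EM
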