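import Mathlib
import Pool.Agent.H923R2.FP.Stubs

set_option autoImplicit false

/-! The small solution of `Z t ≈ δ_1` with alternating signs (task CW). -/

noncomputable section

namespace Pool.Agent.H923R2.FP.T_CW

open Pool.Agent.H923R2.FP

lemma sum_sq_single {I α : Type*} (S : Finset I) (φ : I → α) (e : I → ℝ)
    (hφ : Set.InjOn φ S) :
    ∑ w ∈ (∑ i ∈ S, Finsupp.single (φ i) (e i)).support,
      ((∑ i ∈ S, Finsupp.single (φ i) (e i)) w) ^ 2 = ∑ i ∈ S, e i ^ 2 := by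
  classical
  set f : α →₀ ℝ := ∑ i ∈ S, Finsupp.single (φ i) (e i) with hf
  have h1 : ∀ i ∈ S, f (φ i) = e i := by
    intro i hi
    rw [hf, Finsupp.finsetSum_apply, Finset.sum_eq_single i]
    · simp
    · intro j hj hji
      rw [Finsupp.single_apply, if_neg]
      intro h
      exact hji (hφ hj hi h)
    · intro h; exact absurd hi h
  have h2 : f.support ⊆ S.image φ := by
    intro w hw
    by_contra h
    apply Finsupp.mem_support_iff.mp hw
    rw [hf, Finsupp.finsetSum_apply]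
    apply Finset.sum_eq_zero
    intro i hi
    rw [Finsupp.single_apply, if_neg]
    intro h'
    exact h (Finset.mem_image.mpr ⟨i, hi, h'⟩)
  rw [Finset.sum_subset h2 (fun w _ hw => by rw [Finsupp.notMem_support_iff.mp hw]; simp),
    Finset.sum_image hφ]
  exact Finset.sum_congr rfl fun i hi => by rw [h1 i hi]

lemma n2_le {α : Type} {c : α →₀ ℝ} {ε : ℝ} (hε : 0 < ε)
    (h : ∑ w ∈ c.support, c w ^ 2 < ε ^ 2) : n2 c < ε := by
  unfold n2
  rw [← Real.sqrt_sq hε.le]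
  exact Real.sqrt_lt_sqrt (Finset.sum_nonneg fun _ _ => sq_nonneg _) h

lemma act_single {α : Type} [Group α] (y w : α) (r : ℝ) :
    act y (Finsupp.single w r) = Finsupp.single (y * w) r := by
  simp [act]

lemma act_sum {α I : Type} [Group α] (y : α) (S : Finset I) (f : I → α →₀ ℝ) :
    act y (∑ i ∈ S, f i) = ∑ i ∈ S, act y (f i) := by
  unfold act
  exact Finsupp.mapDomain_finsetSum

instance (q : ℕ) (w : List (ℕ × ℕ)) : Decidable (adm q w) := by
  cases w with
  | nil => exact instDecidableTrue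
  | cons a t => unfold adm; infer_instance

/-- the valid words of length `n` with indices in `[1, L]` -/
def W (L : ℕ) : ℕ → Finset (List (ℕ × ℕ))
  | 0 => {[]}
  | n + 1 => (((Finset.Icc 1 L) ×ˢ (Finset.Icc 1 L)) ×ˢ W L n).filter
      (fun z => z.1.1 ≠ z.1.2 ∧ adm z.1.2 z.2) |>.image fun z => z.1 :: z.2

/-- admissible indices in front of a word -/
def Ad' (L : ℕ) (w : List (ℕ × ℕ)) : Finset ℕ := (Finset.Icc 1 L).filter fun q => adm q w

lemma mem_W_succ {L n : ℕ} {p q : ℕ} {w : List (ℕ × ℕ)} : (p, q) :: w ∈ W L (n + 1) ↔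
    (1 ≤ p ∧ p ≤ L) ∧ (q ∈ Ad' L w) ∧ p ≠ q ∧ w ∈ W L n := by
  simp only [W, Ad', Finset.mem_image, Finset.mem_filter, Finset.mem_product, Finset.mem_Icc,
    Prod.exists]
  constructor
  · rintro ⟨p', q', w', ⟨⟨⟨h1, h2⟩, h3⟩, h4, h5⟩, h6⟩
    simp only [List.cons.injEq, Prod.mk.injEq] at h6
    obtain ⟨⟨rfl, rfl⟩, rfl⟩ := h6
    exact ⟨h1, ⟨h2, h5⟩, h4, h3⟩
  · rintro ⟨h1, ⟨h2, h5⟩, h4, h3⟩
    exact ⟨p, q, w, ⟨⟨⟨h1, h2⟩, h3⟩, h4, h5⟩, rfl⟩

lemma W_len {L n : ℕ} {w : List (ℕ × ℕ)} (h : w ∈ W L n) : w.length = n := by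
  induction n generalizing w with
  | zero => simp only [W, Finset.mem_singleton] at h; rw [h]; rfl
  | succ n ih =>
    cases w with
    | nil => simp [W] at h
    | cons m w =>
      obtain ⟨p, q⟩ := m
      rw [mem_W_succ] at h
      simp [ih h.2.2.2]

lemma W_vd {L n : ℕ} {w : List (ℕ × ℕ)} (h : w ∈ W L n) : Vd w := by
  induction n generalizing w with
  | zero => simp only [W, Finset.mem_singleton] at h; rw [h]; trivial
  | succ n ih =>
    cases w with
    | nil => simp [W] at h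
    | cons m w =>
      obtain ⟨p, q⟩ := m
      rw [mem_W_succ] at h
      obtain ⟨h1, h2, h3, h4⟩ := h
      simp only [Ad', Finset.mem_filter, Finset.mem_Icc] at h2
      exact ⟨h1.1, h2.1.1, h3, h2.2, ih h4⟩

lemma W_card (L n : ℕ) : (W L n).card ≤ L ^ (2 * n) := by
  induction n with
  | zero => simp [W]
  | succ n ih =>
    calc (W L (n + 1)).card ≤ ((((Finset.Icc 1 L) ×ˢ (Finset.Icc 1 L)) ×ˢ W L n).filter
      (fun z => z.1.1 ≠ z.1.2 ∧ adm z.1.2 z.2)).card := Finset.card_image_le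
      _ ≤ (((Finset.Icc 1 L) ×ˢ (Finset.Icc 1 L)) ×ˢ W L n).card := Finset.card_filter_le _ _
      _ = L * L * (W L n).card := by simp [Finset.card_product]
      _ ≤ L * L * L ^ (2 * n) := Nat.mul_le_mul_left _ ih
      _ = L ^ (2 * (n + 1)) := by ring

lemma Ad'_le (L : ℕ) (w : List (ℕ × ℕ)) : (Ad' L w).card ≤ L := by
  calc (Ad' L w).card ≤ (Finset.Icc 1 L).card := Finset.card_filter_le _ _
    _ = L := by simp

lemma Ad'_nil (L : ℕ) : (Ad' L []).card = L := by
  simp [Ad', adm]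

lemma Ad'_ge (L : ℕ) (w : List (ℕ × ℕ)) : L ≤ (Ad' L w).card + 5 := by
  cases w with
  | nil => rw [Ad'_nil]; omega
  | cons m w =>
    obtain ⟨p, r⟩ := m
    have h : Finset.Icc 1 L ⊆ Ad' L ((p, r) :: w) ∪ {p - 2, p - 1, p, p + 1, p + 2} := by
      intro q hq
      rw [Finset.mem_union]
      by_cases h : p + 3 ≤ q ∨ q + 3 ≤ p
      · exact Or.inl (Finset.mem_filter.mpr ⟨hq, h⟩)
      · right
        simp only [Finset.mem_insert, Finset.mem_singleton]
        omega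
    have h2 := Finset.card_le_card h
    have h3 := Finset.card_union_le (Ad' L ((p, r) :: w)) {p - 2, p - 1, p, p + 1, p + 2}
    have h4 : ({p - 2, p - 1, p, p + 1, p + 2} : Finset ℕ).card ≤ 5 := Finset.card_le_five
    simp only [Nat.card_Icc, Nat.add_sub_cancel] at h2
    omega

/-- the sign of an index -/
def sg (k : ℕ) : ℝ := (-1) ^ (k + 1)

lemma sg_sq (k : ℕ) : sg k * sg k = 1 := by
  unfold sg
  rw [← mul_pow]
  norm_num

/-- the sign of a word -/
def Sg : List (ℕ × ℕ) → ℝ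
  | [] => 1
  | (p, q) :: w => sg p * (sg q * Sg w)

lemma Sg_sq (w : List (ℕ × ℕ)) : Sg w ^ 2 = 1 := by
  induction w with
  | nil => simp [Sg]
  | cons m w ih =>
    obtain ⟨p, q⟩ := m
    simp only [Sg]
    have h : (sg p * (sg q * Sg w)) ^ 2 = (sg p * sg p) * (sg q * sg q) * Sg w ^ 2 := by ring
    rw [h, sg_sq, sg_sq, ih]
    norm_num

section

variable (L : ℕ)

/-- level `n` part of the solution -/
def C (s : ℕ → ℝ) (n : ℕ) : F2 →₀ ℝ :=
  ∑ w ∈ W L n, ∑ q ∈ Ad' L w, Finsupp.single ((yy q)⁻¹ * val w) (s n * (sg q * Sg w))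

lemma sum_W_succ {M : Type*} [AddCommMonoid M] (f : List (ℕ × ℕ) → M) (n : ℕ) :
    ∑ w ∈ W L n, ∑ q ∈ Ad' L w, ∑ p ∈ (Finset.Icc 1 L).filter (fun p => p ≠ q), f ((p, q) :: w)
      = ∑ w ∈ W L (n + 1), f w := by
  rw [Finset.sum_congr rfl (fun w _ => Finset.sum_sigma' _ _ _), Finset.sum_sigma']
  refine Finset.sum_bij (fun z _ => (z.2.2, z.2.1) :: z.1) ?_ ?_ ?_ ?_
  · rintro ⟨w, q, p⟩ h
    simp only [Finset.mem_sigma, Finset.mem_filter, Finset.mem_Icc] at h
    rw [mem_W_succ]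
    exact ⟨h.2.2.1, h.2.1, h.2.2.2, h.1⟩
  · rintro ⟨w, q, p⟩ h ⟨w', q', p'⟩ h' e
    simp only [List.cons.injEq, Prod.mk.injEq] at e
    obtain ⟨⟨rfl, rfl⟩, rfl⟩ := e
    rfl
  · intro w hw
    cases w with
    | nil => simp [W] at hw
    | cons m w =>
      obtain ⟨p, q⟩ := m
      rw [mem_W_succ] at hw
      refine ⟨⟨w, q, p⟩, ?_, rfl⟩
      simp only [Finset.mem_sigma, Finset.mem_filter, Finset.mem_Icc]
      exact ⟨hw.2.2.2, hw.2.1, hw.1, hw.2.2.1⟩
  · rintro ⟨w, q, p⟩ h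
    rfl

lemma act_C (s : ℕ → ℝ) (n : ℕ) :
    ∑ p ∈ Finset.Icc 1 L, sg p • act (yy p) (C L s n) =
      ∑ w ∈ W L n, Finsupp.single (val w) (s n * (Ad' L w).card * Sg w) +
      ∑ w ∈ W L (n + 1), Finsupp.single (val w) (s n * Sg w) := by
  rw [← sum_W_succ, ← Finset.sum_add_distrib]
  unfold C
  simp_rw [act_sum, act_single, Finset.smul_sum, Finsupp.smul_single, smul_eq_mul]
  rw [Finset.sum_comm]
  refine Finset.sum_congr rfl fun w hw => ?_
  rw [Finset.sum_comm]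
  have h1 : Finsupp.single (val w) (s n * (Ad' L w).card * Sg w) =
      ∑ q ∈ Ad' L w, Finsupp.single (val w) (s n * Sg w) := by
    rw [Finset.sum_const, Finsupp.smul_single, nsmul_eq_mul]
    congr 1
    ring
  rw [h1, ← Finset.sum_add_distrib]
  refine Finset.sum_congr rfl fun q hq => ?_
  have hq' : q ∈ Finset.Icc 1 L := (Finset.mem_filter.mp hq).1
  rw [← Finset.sum_filter_add_sum_filter_not (Finset.Icc 1 L) (fun p => p ≠ q), add_comm]
  congr 1
  · have h2 : (Finset.Icc 1 L).filter (fun p => ¬ p ≠ q) = {q} := by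
      ext p
      simp only [Finset.mem_filter, not_not, Finset.mem_singleton]
      constructor
      · exact fun h => h.2
      · rintro rfl; exact ⟨hq', rfl⟩
    rw [h2, Finset.sum_singleton, mul_inv_cancel_left]
    congr 1
    have h3 : sg q * (s n * (sg q * Sg w)) = s n * Sg w * (sg q * sg q) := by ring
    rw [h3, sg_sq, mul_one]
  · refine Finset.sum_congr rfl fun p _ => ?_
    simp only [val, Sg]
    congr 1
    ring

end

/-- the coefficients -/
def sc (N L : ℕ) (n : ℕ) : ℝ := (-1) ^ n * (1 - n / N) / (L : ℝ) ^ (n + 1)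

/-- the coefficients of the error -/
def ec (N L : ℕ) (n : ℕ) (w : List (ℕ × ℕ)) : ℝ :=
  sc N L n * (Ad' L w).card + sc N L (n - 1)

lemma ec_bound {N L n : ℕ} (hn : 1 ≤ n) (hN : n ≤ N) (hL : 1 ≤ L) (w : List (ℕ × ℕ)) :
    (ec N L n w) ^ 2 ≤ (5 / L + 1 / N) ^ 2 / (L : ℝ) ^ (2 * n) := by
  obtain ⟨m, rfl⟩ : ∃ m, n = m + 1 := ⟨n - 1, by omega⟩
  have hL' : (0 : ℝ) < L := by exact_mod_cast hL
  have hN' : (0 : ℝ) < N := by exact_mod_cast (by omega : 0 < N)
  have hd1 : ((Ad' L w).card : ℝ) ≤ L := by exact_mod_cast Ad'_le L w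
  have hd2 : (L : ℝ) ≤ (Ad' L w).card + 5 := by exact_mod_cast Ad'_ge L w
  set t : ℝ := 1 - ((m + 1 : ℕ) : ℝ) / N with ht
  have ht0 : 0 ≤ t := by
    rw [ht, sub_nonneg, div_le_one hN']
    exact_mod_cast hN
  have ht1 : t ≤ 1 := by
    rw [ht]; have : (0 : ℝ) ≤ ((m + 1 : ℕ) : ℝ) / N := by positivity
    linarith
  set v : ℝ := (L - (Ad' L w).card) / L with hv
  have hv0 : 0 ≤ v := div_nonneg (by linarith) hL'.le
  have hv1 : v ≤ 5 / L := div_le_div_of_nonneg_right (by linarith) hL'.le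
  have e1 : ec N L (m + 1) w = (-1) ^ (m + 1) / (L : ℝ) ^ (m + 1) * (-(t * v + 1 / N)) := by
    unfold ec sc
    rw [Nat.add_sub_cancel, ht, hv]
    push_cast
    field_simp
    ring
  have e2 : (ec N L (m + 1) w) ^ 2 = (t * v + 1 / N) ^ 2 / (L : ℝ) ^ (2 * (m + 1)) := by
    rw [e1, mul_pow, div_pow, neg_sq, ← pow_mul, ← pow_mul, mul_comm (m + 1) 2, pow_mul (-1 : ℝ)]
    norm_num
    ring
  rw [e2]
  apply div_le_div_of_nonneg_right _ (by positivity)
  have h1 : t * v ≤ 5 / L := by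
    calc t * v ≤ 1 * v := mul_le_mul_of_nonneg_right ht1 hv0
      _ = v := one_mul v
      _ ≤ 5 / L := hv1
  have h2 : 0 ≤ t * v := mul_nonneg ht0 hv0
  have h3 : (0 : ℝ) ≤ 1 / N := by positivity
  exact pow_le_pow_left₀ (by linarith) (by linarith) 2

lemma ec_zero {N L : ℕ} (hL : 1 ≤ L) : sc N L 0 * (Ad' L []).card * Sg [] = 1 := by
  have hL' : (0 : ℝ) < L := by exact_mod_cast hL
  rw [Ad'_nil]
  unfold sc Sg
  simp
  field_simp

lemma sc_N {N L : ℕ} (hN : 1 ≤ N) : sc N L N = 0 := by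
  have hN' : (0 : ℝ) < N := by exact_mod_cast hN
  unfold sc
  rw [div_self hN'.ne']
  simp

lemma sc_sq {N L n : ℕ} (hN : n ≤ N) (hN0 : 1 ≤ N) :
    (sc N L n) ^ 2 ≤ 1 / (L : ℝ) ^ (2 * n + 2) := by
  have hN' : (0 : ℝ) < N := by exact_mod_cast hN0
  unfold sc
  set t : ℝ := 1 - (n : ℝ) / N with ht
  have ht0 : 0 ≤ t := by
    rw [ht, sub_nonneg, div_le_one hN']
    exact_mod_cast hN
  have ht1 : t ≤ 1 := by
    rw [ht]; have : (0 : ℝ) ≤ (n : ℝ) / N := by positivity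
    linarith
  rw [div_pow, mul_pow, ← pow_mul, ← pow_mul, mul_comm n 2, pow_mul (-1 : ℝ)]
  have e : (n + 1) * 2 = 2 * n + 2 := by ring
  rw [e]
  norm_num
  rw [← one_div]
  apply div_le_div_of_nonneg_right _ (by positivity)
  exact pow_le_one₀ ht0 ht1

section

variable (N L : ℕ)

/-- the solution -/
def cc : F2 →₀ ℝ := ∑ n ∈ Finset.range N, C L (sc N L) n

/-- the alternating sum over `[1, L]` -/
def ZA (t : F2 →₀ ℝ) : F2 →₀ ℝ := ∑ k ∈ Finset.Icc 1 L, sg k • act (yy k) t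

lemma ZA_cc (hN : 1 ≤ N) (hL : 1 ≤ L) :
    ZA L (cc N L) - Finsupp.single 1 1 =
      ∑ n ∈ Finset.Icc 1 N, ∑ w ∈ W L n, Finsupp.single (val w) (ec N L n w * Sg w) := by
  unfold ZA cc
  simp_rw [act_sum, Finset.smul_sum]
  rw [Finset.sum_comm]
  simp_rw [act_C]
  rw [Finset.sum_add_distrib]
  have h1 : ∑ n ∈ Finset.range N, ∑ w ∈ W L n,
      Finsupp.single (val w) (sc N L n * (Ad' L w).card * Sg w) =
      Finsupp.single 1 1 + ∑ n ∈ Finset.Icc 1 N, ∑ w ∈ W L n,
      Finsupp.single (val w) (sc N L n * (Ad' L w).card * Sg w) := by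
    have h2 : ∑ n ∈ Finset.range (N + 1), ∑ w ∈ W L n,
      Finsupp.single (val w) (sc N L n * (Ad' L w).card * Sg w) =
      ∑ n ∈ Finset.range N, ∑ w ∈ W L n,
      Finsupp.single (val w) (sc N L n * (Ad' L w).card * Sg w) := by
      rw [Finset.sum_range_succ, sc_N hN]
      simp
    rw [← h2, Finset.sum_range_succ', add_comm]
    congr 1
    · simp only [W, Finset.sum_singleton, val]
      rw [ec_zero hL]
    · rw [Finset.range_eq_Ico, Finset.sum_Ico_add' (fun n => ∑ w ∈ W L n,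
      Finsupp.single (val w) (sc N L n * (Ad' L w).card * Sg w)) 0 N 1]
      rfl
  have h3 : ∑ n ∈ Finset.range N, ∑ w ∈ W L (n + 1), Finsupp.single (val w) (sc N L n * Sg w) =
      ∑ n ∈ Finset.Icc 1 N, ∑ w ∈ W L n, Finsupp.single (val w) (sc N L (n - 1) * Sg w) := by
    rw [Finset.range_eq_Ico]
    have := Finset.sum_Ico_add' (fun n => ∑ w ∈ W L n,
      Finsupp.single (val w) (sc N L (n - 1) * Sg w)) 0 N 1
    simp only [Nat.add_sub_cancel] at this
    rw [this]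
    rfl
  rw [h1, h3, add_assoc, add_sub_cancel_left, ← Finset.sum_add_distrib]
  refine Finset.sum_congr rfl fun n _ => ?_
  rw [← Finset.sum_add_distrib]
  refine Finset.sum_congr rfl fun w _ => ?_
  rw [← Finsupp.single_add]
  unfold ec
  congr 1
  ring

lemma err_le (hD : S_DIST) (hN : 1 ≤ N) (hL : 1 ≤ L) :
    ∑ w ∈ (ZA L (cc N L) - Finsupp.single 1 1).support,
      ((ZA L (cc N L) - Finsupp.single 1 1 : F2 →₀ ℝ) w) ^ 2 ≤
      N * (5 / L + 1 / N) ^ 2 := by
  rw [ZA_cc N L hN hL, Finset.sum_sigma', sum_sq_single]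
  · rw [Finset.sum_sigma]
    calc ∑ n ∈ Finset.Icc 1 N, ∑ w ∈ W L n, (ec N L n w * Sg w) ^ 2
        ≤ ∑ n ∈ Finset.Icc 1 N, ((5 / L + 1 / N) ^ 2 : ℝ) := by
          refine Finset.sum_le_sum fun n hn => ?_
          rw [Finset.mem_Icc] at hn
          have hL' : (0 : ℝ) < L := by exact_mod_cast hL
          calc ∑ w ∈ W L n, (ec N L n w * Sg w) ^ 2
              ≤ ∑ w ∈ W L n, (5 / L + 1 / N : ℝ) ^ 2 / (L : ℝ) ^ (2 * n) :=
                Finset.sum_le_sum fun w _ => by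
                  rw [mul_pow, Sg_sq, mul_one]
                  exact ec_bound hn.1 hn.2 hL w
            _ = (W L n).card * ((5 / L + 1 / N : ℝ) ^ 2 / (L : ℝ) ^ (2 * n)) := by
                rw [Finset.sum_const, nsmul_eq_mul]
            _ ≤ (L : ℝ) ^ (2 * n) * ((5 / L + 1 / N : ℝ) ^ 2 / (L : ℝ) ^ (2 * n)) := by
                apply mul_le_mul_of_nonneg_right _ (by positivity)
                exact_mod_cast W_card L n
            _ = (5 / L + 1 / N : ℝ) ^ 2 := by field_simp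
      _ = N * (5 / L + 1 / N) ^ 2 := by
          rw [Finset.sum_const, nsmul_eq_mul, Nat.card_Icc, Nat.add_sub_cancel]
  · rintro ⟨n, w⟩ h ⟨n', w'⟩ h' e
    simp only [Finset.coe_sigma, Set.mem_sigma_iff, Finset.mem_coe] at h h'
    have h2 := hD.1 w w' (W_vd h.2) (W_vd h'.2) e
    subst h2
    have h3 := W_len h.2
    have h4 := W_len h'.2
    have h5 : n = n' := by omega
    subst h5
    rfl

lemma cc_le (hD : S_DIST) (hN : 1 ≤ N) (hL : 1 ≤ L) :
    ∑ w ∈ (cc N L).support, (cc N L w) ^ 2 ≤ N / L := by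
  have h0 : cc N L = ∑ z ∈ (Finset.range N).sigma fun n => (W L n).sigma fun w => Ad' L w,
      Finsupp.single ((yy z.2.2)⁻¹ * val z.2.1) (sc N L z.1 * (sg z.2.2 * Sg z.2.1)) := by
    unfold cc C
    rw [Finset.sum_sigma]
    refine Finset.sum_congr rfl fun n _ => ?_
    rw [Finset.sum_sigma]
  rw [h0, sum_sq_single]
  · rw [Finset.sum_sigma]
    have hL' : (0 : ℝ) < L := by exact_mod_cast hL
    calc ∑ n ∈ Finset.range N, ∑ z ∈ (W L n).sigma fun w => Ad' L w,
          (sc N L n * (sg z.2 * Sg z.1)) ^ 2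
        ≤ ∑ n ∈ Finset.range N, (1 / L : ℝ) := by
          refine Finset.sum_le_sum fun n hn => ?_
          rw [Finset.mem_range] at hn
          calc ∑ z ∈ (W L n).sigma fun w => Ad' L w, (sc N L n * (sg z.2 * Sg z.1)) ^ 2
              = ∑ z ∈ (W L n).sigma fun w => Ad' L w, sc N L n ^ 2 := by
                refine Finset.sum_congr rfl fun z _ => ?_
                have : (sc N L n * (sg z.2 * Sg z.1)) ^ 2 =
                  sc N L n ^ 2 * (sg z.2 * sg z.2) * Sg z.1 ^ 2 := by ring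
                rw [this, sg_sq, Sg_sq, mul_one, mul_one]
            _ = ((W L n).sigma fun w => Ad' L w).card * sc N L n ^ 2 := by
                rw [Finset.sum_const, nsmul_eq_mul]
            _ ≤ ((L : ℝ) ^ (2 * n) * L) * (1 / (L : ℝ) ^ (2 * n + 2)) := by
                apply mul_le_mul _ (sc_sq hn.le hN) (by positivity) (by positivity)
                have h1 : ((W L n).sigma fun w => Ad' L w).card ≤ L ^ (2 * n) * L := by
                  rw [Finset.card_sigma]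
                  calc ∑ w ∈ W L n, (Ad' L w).card ≤ ∑ w ∈ W L n, L :=
                        Finset.sum_le_sum fun w _ => Ad'_le L w
                    _ = (W L n).card * L := by rw [Finset.sum_const, smul_eq_mul]
                    _ ≤ L ^ (2 * n) * L := Nat.mul_le_mul_right _ (W_card L n)
                exact_mod_cast h1
            _ = 1 / L := by
                rw [pow_add]
                field_simp
      _ = N / L := by
          rw [Finset.sum_const, nsmul_eq_mul, Finset.card_range]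
          ring
  · rintro ⟨n, w, q⟩ h ⟨n', w', q'⟩ h' e
    simp only [Finset.coe_sigma, Set.mem_sigma_iff, Finset.mem_coe] at h h'
    obtain ⟨_, h1, h2⟩ := h
    obtain ⟨_, h1', h2'⟩ := h'
    simp only [Ad', Finset.mem_filter, Finset.mem_Icc] at h2 h2'
    obtain ⟨e1, e2⟩ := hD.2 w w' q q' (W_vd h1) (W_vd h1') h2.1.1 h2'.1.1 h2.2 h2'.2 e
    subst e1 e2
    have h3 := W_len h1
    have h4 := W_len h1'
    have h5 : n = n' := by omega
    subst h5
    rfl

lemma at_one (hD : S_DIST) (hN : 1 ≤ N) (hL : 1 ≤ L) : (ZA L (cc N L)) 1 = 1 := by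
  classical
  have h := congrArg (fun f : F2 →₀ ℝ => f 1) (ZA_cc N L hN hL)
  simp only [Finsupp.sub_apply, Finsupp.single_eq_same] at h
  have h0 : (∑ n ∈ Finset.Icc 1 N, ∑ w ∈ W L n,
      Finsupp.single (val w) (ec N L n w * Sg w) : F2 →₀ ℝ) 1 = 0 := by
    rw [Finsupp.finsetSum_apply]
    refine Finset.sum_eq_zero fun n hn => ?_
    rw [Finsupp.finsetSum_apply]
    refine Finset.sum_eq_zero fun w hw => ?_
    rw [Finsupp.single_apply, if_neg]
    intro e
    have h1 := hD.1 w [] (W_vd hw) trivial e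
    have h2 := W_len hw
    rw [h1] at h2
    rw [Finset.mem_Icc] at hn
    simp at h2
    omega
  rw [h0] at h
  linarith

end

lemma Zs_eq (L : ℕ) (t : F2 →₀ ℝ) : Zs L t = ZA (2 * L) t := rfl

theorem t_CW (hD : S_DIST) : S_CW := by
  classical
  intro ε hε
  obtain ⟨N, hN⟩ := exists_nat_gt (36 / ε ^ 2)
  have hε2 : 0 < ε ^ 2 := by positivity
  have hN0 : (0 : ℝ) < N := lt_trans (by positivity) hN
  have hN1 : 1 ≤ N := by exact_mod_cast hN0
  have hN1' : (1 : ℝ) ≤ N := by exact_mod_cast hN1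
  have hlt : 36 / (N : ℝ) < ε ^ 2 := by
    rw [div_lt_iff₀ hN0, mul_comm]
    rwa [div_lt_iff₀ hε2] at hN
  have hL : 1 ≤ 2 * N ^ 2 := by
    have := Nat.one_le_pow 2 N hN1
    omega
  have hLN' : ((2 * N ^ 2 : ℕ) : ℝ) = 2 * (N : ℝ) ^ 2 := by push_cast; rfl
  refine ⟨N ^ 2, cc N (2 * N ^ 2), ?_, ?_, ?_⟩
  · apply n2_le hε
    refine lt_of_le_of_lt (cc_le N (2 * N ^ 2) hD hN1 hL) (lt_of_le_of_lt ?_ hlt)
    rw [hLN']
    have h1 : (N : ℝ) / (2 * (N : ℝ) ^ 2) = (1 / 2) / N := by field_simp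
    rw [h1]
    exact div_le_div_of_nonneg_right (by norm_num) hN0.le
  · rw [Zs_eq]
    apply n2_le hε
    refine lt_of_le_of_lt (err_le N (2 * N ^ 2) hD hN1 hL) (lt_of_le_of_lt ?_ hlt)
    have h1 : 5 / ((2 * N ^ 2 : ℕ) : ℝ) ≤ 5 / N := by
      rw [hLN']
      apply div_le_div_of_nonneg_left (by norm_num) hN0
      nlinarith
    have h2 : (5 / ((2 * N ^ 2 : ℕ) : ℝ) + 1 / N) ≤ 6 / N := by
      have h3 : (6 : ℝ) / N = 5 / N + 1 / N := by ring
      linarith
    have h3 : (N : ℝ) * (5 / ((2 * N ^ 2 : ℕ) : ℝ) + 1 / N) ^ 2 ≤ N * (6 / N) ^ 2 :=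
      mul_le_mul_of_nonneg_left (pow_le_pow_left₀ (by positivity) h2 2) hN0.le
    have h4 : (N : ℝ) * (6 / N) ^ 2 = 36 / N := by field_simp; norm_num
    linarith
  · rw [Zs_eq]
    exact at_one N (2 * N ^ 2) hD hN1 hL

end Pool.Agent.H923R2.FP.T_CW
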