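import Pool.Agent.H923R2.FZ.Stubs2

/-! Absorption of the copy number 0 (task ABSIS). -/

set_option autoImplicit false

noncomputable section

namespace Pool.Agent.H923R2.FZ.T_ABSIS

open Pool.Agent.H923R2 Pool.Agent.H923R2.FP Pool.Agent.H923R2.FZ

lemma fam_mono {A : Type} [CStarAlgebra A] {τ : A →ₗ[ℂ] ℂ} {K K' : Type} (φ : K → K')
    (hφ : Function.Injective φ) {S : K' → StarSubalgebra ℂ A} {S' : K → StarSubalgebra ℂ A}
    (hS : ∀ k, S' k ≤ S (φ k)) (h : FreeFam τ S) : FreeFam τ S' := by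
  intro w hw h1 h2
  have h3 := h (w.map fun z => (φ z.1, z.2)) (by simpa using hw) (by
    intro z hz
    rw [List.mem_map] at hz
    obtain ⟨y, hy, rfl⟩ := hz
    exact ⟨hS _ (h1 y hy).1, (h1 y hy).2⟩) (by
    rw [List.isChain_map]
    exact h2.imp fun x y hxy he => hxy (hφ he))
  rw [List.map_map] at h3
  exact h3

lemma range_codRestrict {A B : Type} [CStarAlgebra A] [CStarAlgebra B] (T : StarSubalgebra ℂ B)
    (g : A →⋆ₐ[ℂ] T) : g.range.map T.subtype = (T.subtype.comp g).range := by
  ext x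
  constructor
  · rintro ⟨y, ⟨a, rfl⟩, rfl⟩
    exact ⟨a, rfl⟩
  · rintro ⟨a, rfl⟩
    exact ⟨g a, ⟨a, rfl⟩, rfl⟩

/-- membership in the closure, from the ambient algebra to the subalgebra -/
lemma mem_clo {B : Type} [CStarAlgebra B] (T : StarSubalgebra ℂ B) (X : Set T) (y : T) :
    y ∈ (StarAlgebra.adjoin ℂ X).topologicalClosure ↔
      (y : B) ∈ (StarAlgebra.adjoin ℂ (T.subtype '' X)).topologicalClosure := by
  rw [← SetLike.mem_coe, ← SetLike.mem_coe, StarSubalgebra.topologicalClosure_coe,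
    StarSubalgebra.topologicalClosure_coe, ← StarAlgHom.map_adjoin]
  have h := (Topology.IsInducing.subtypeVal (t := (T : Set B))).closure_eq_preimage_closure_image
    ((StarAlgebra.adjoin ℂ X : StarSubalgebra ℂ T) : Set T)
  rw [h]
  rfl

open Classical in
theorem t_ABSIS (hABSE : FP.S_ABSE) (hSEP : FP.S_SEP) (hSUB : S_SUB) (hGRP2 : S_GRP2)
    (hCLO : S_CLO) (hUNG2 : S_UNG2) : S_ABSIS := by
  intro J _ D _ _ t i0 i1 h01 c0 c1 hc0 hc1 B _ τ e f h ε hε
  -- the subalgebra
  obtain ⟨X, hX⟩ : ∃ X : Set B, X = (⋃ j, Set.range (e j)) ∪ Set.range (f 0) := ⟨_, rfl⟩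
  obtain ⟨T, hT⟩ : ∃ T : StarSubalgebra ℂ B, T = (StarAlgebra.adjoin ℂ X).topologicalClosure :=
    ⟨_, rfl⟩
  haveI hTc : IsClosed (T : Set B) := by
    rw [hT]
    exact StarSubalgebra.isClosed_topologicalClosure _
  have hXT : ∀ x ∈ X, x ∈ T := by
    intro x hx
    rw [hT]
    exact StarSubalgebra.le_topologicalClosure _ (StarAlgebra.subset_adjoin ℂ X hx)
  have heT : ∀ j x, e j x ∈ T := fun j x => hXT _ (by
    rw [hX]; exact Or.inl (Set.mem_iUnion.2 ⟨j, x, rfl⟩))
  have hfT : ∀ x, f 0 x ∈ T := fun x => hXT _ (by rw [hX]; exact Or.inr ⟨x, rfl⟩)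
  let e' : ∀ j, D j →⋆ₐ[ℂ] T := fun j => (e j).codRestrict T (heT j)
  let f' : C(unitInterval, ℂ) →⋆ₐ[ℂ] T := (f 0).codRestrict T hfT
  have hee : ∀ j x, ((e' j x : T) : B) = e j x := fun _ _ => rfl
  have hff : ∀ x, ((f' x : T) : B) = f 0 x := fun _ => rfl
  obtain ⟨hfts, hfam⟩ := hSUB B τ h.fts T
  set τ' : T →ₗ[ℂ] ℂ := τ.comp T.subtype.toAlgHom.toLinearMap with hτ'
  have hττ : ∀ y : T, τ' y = τ (y : B) := fun _ => rfl
  have hR1 : RFP1 D t τ' e' f' := by
    refine ⟨hfts, fun j x => ?_, fun x => ?_, ?_, ?_⟩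
    · rw [hττ, hee]; exact h.tr j x
    · rw [hττ, hff]; exact h.trf 0 x
    · rw [← hfam (Option J)]
      refine fam_mono (fun o : Option J => o.elim (Sum.inr 0) Sum.inl) ?_ ?_ h.free
      · rintro (_ | a) (_ | b) hab
        · rfl
        · simp at hab
        · simp at hab
        · simpa using hab
      · rintro (_ | a)
        · show f'.range.map T.subtype ≤ (f 0).range
          rw [range_codRestrict]
          exact le_of_eq rfl
        · show (e' a).range.map T.subtype ≤ (e a).range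
          rw [range_codRestrict]
          exact le_of_eq rfl
    · rw [eq_top_iff]
      rintro y -
      rw [mem_clo]
      have e1 : T.subtype '' ((⋃ j, Set.range (e' j)) ∪ Set.range f') = X := by
        rw [hX, Set.image_union, Set.image_iUnion]
        congr 1
        · refine Set.iUnion_congr fun j => ?_
          rw [← Set.range_comp]
          rfl
        · rw [← Set.range_comp]
          rfl
      rw [e1, ← hT]
      exact y.2
  haveI hsep : TopologicalSpace.SeparableSpace T := hSEP J D t T τ' e' f' hR1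
  obtain ⟨σ', hσ1, hσ2⟩ := hABSE J D t i0 i1 h01 c0 c1 hc0 hc1 T τ' e' f' hR1 ε hε
  obtain ⟨σ, hσ⟩ : ∃ σ : D i0 →⋆ₐ[ℂ] B, σ = T.subtype.comp σ' := ⟨_, rfl⟩
  have hup : ∀ j, T.subtype.comp (Function.update e' i0 σ' j) = Function.update e i0 σ j := by
    intro j
    by_cases hj : j = i0
    · subst hj
      rw [Function.update_self, Function.update_self, hσ]
    · rw [Function.update_of_ne hj, Function.update_of_ne hj]
      rfl
  have hupx : ∀ j x, ((Function.update e' i0 σ' j x : T) : B) = Function.update e i0 σ j x := by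
    intro j x
    rw [← hup]
    rfl
  have hcl : ∀ y : T, (y : B) ∈
      (StarAlgebra.adjoin ℂ (⋃ j, Set.range (Function.update e i0 σ j))).topologicalClosure := by
    intro y
    have h1 : y ∈ (StarAlgebra.adjoin ℂ
        (⋃ j, Set.range (Function.update e' i0 σ' j))).topologicalClosure := by
      rw [hσ2.gen]
      trivial
    rw [mem_clo] at h1
    have e1 : T.subtype '' (⋃ j, Set.range (Function.update e' i0 σ' j)) =
        ⋃ j, Set.range (Function.update e i0 σ j) := by
      rw [Set.image_iUnion]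
      refine Set.iUnion_congr fun j => ?_
      rw [← Set.range_comp, ← hup]
      rfl
    rwa [e1] at h1
  refine ⟨σ, ?_, ⟨h.fts, ?_, fun n x => h.trf (n + 1) x, ?_, ?_⟩, fun x => hcl (e' i0 x),
    fun x => hcl (f' x)⟩
  · intro x
    have := hσ1 x
    rw [hσ]
    exact this
  · intro j x
    rw [← hupx]
    exact hσ2.tr j x
  · -- freeness
    have hP : ∀ k : J ⊕ ℕ, k ∈ Set.range (Sum.inl : J → J ⊕ ℕ) ↔ ∃ j, k = Sum.inl j := by
      intro k
      constructor
      · rintro ⟨j, rfl⟩; exact ⟨j, rfl⟩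
      · rintro ⟨j, rfl⟩; exact ⟨j, rfl⟩
    refine hUNG2 B τ h.fts (J ⊕ ℕ) _ (Set.range Sum.inl) T ?_ ?_ ?_
    · rintro _ ⟨j, rfl⟩
      rintro _ ⟨x, rfl⟩
      show Function.update e i0 σ j x ∈ T
      rw [← hupx]
      exact (Function.update e' i0 σ' j x : T).2
    · have h1 := (hfam J (fun j => (Function.update e' i0 σ' j).range)).2 hσ2.free
      refine fam_mono (fun k : {k : J ⊕ ℕ // k ∈ Set.range Sum.inl} => k.2.choose) ?_ ?_ h1
      · intro a b hab
        apply Subtype.ext
        rw [← a.2.choose_spec, ← b.2.choose_spec]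
        exact congrArg Sum.inl hab
      · rintro ⟨k, hk⟩
        show (Sum.elim (fun j => (Function.update e i0 σ j).range)
          (fun n => (f (n + 1)).range) k : StarSubalgebra ℂ B) ≤ _
        have e1 : (Sum.inl hk.choose : J ⊕ ℕ) = k := hk.choose_spec
        rw [range_codRestrict, hup]
        conv_lhs => rw [← e1]
        exact le_of_eq rfl
    · -- {T, f (n+1)} free
      obtain ⟨P0, hP0⟩ : ∃ P0 : Set (J ⊕ ℕ), P0 = {k | ∀ n : ℕ, k = Sum.inr n → n = 0} := ⟨_, rfl⟩
      have h1 := hCLO B τ h.fts _ _ (hGRP2 B τ h.fts (J ⊕ ℕ) _ h.free P0)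
      have hn : ∀ k : {k : J ⊕ ℕ // k ∉ Set.range (Sum.inl : J → J ⊕ ℕ)},
          ∃ n : ℕ, k.1 = Sum.inr n := by
        rintro ⟨k | n, hk⟩
        · exact absurd ⟨k, rfl⟩ hk
        · exact ⟨n, rfl⟩
      choose nn hnn using hn
      have hnot : ∀ n : ℕ, (Sum.inr (n + 1) : J ⊕ ℕ) ∉ P0 := by
        intro n hmem
        rw [hP0] at hmem
        have := hmem (n + 1) rfl
        omega
      refine fam_mono (fun o : Option {k : J ⊕ ℕ // k ∉ Set.range (Sum.inl : J → J ⊕ ℕ)} =>
        o.map fun k => (⟨Sum.inr (nn k + 1), hnot _⟩ : {k : J ⊕ ℕ // k ∉ P0})) ?_ ?_ h1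
      · apply Option.map_injective
        intro a b hab
        have h2 : (Sum.inr (nn a + 1) : J ⊕ ℕ) = Sum.inr (nn b + 1) := congrArg Subtype.val hab
        apply Subtype.ext
        rw [hnn a, hnn b]
        have h3 := Sum.inr_injective h2
        congr 1
        omega
      · rintro (_ | k)
        · show T ≤ (⨆ k : {k : J ⊕ ℕ // k ∈ P0}, (k.1.elim (fun j => (e j).range)
            fun n => (f n).range : StarSubalgebra ℂ B)).topologicalClosure
          rw [hT]
          apply StarSubalgebra.topologicalClosure_mono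
          rw [StarAlgebra.adjoin_le_iff, hX]
          rintro x (hx | hx)
          · obtain ⟨j, y, rfl⟩ := Set.mem_iUnion.1 hx
            have hj : (Sum.inl j : J ⊕ ℕ) ∈ P0 := by
              rw [hP0]; intro n hn; exact absurd hn (by simp)
            exact (le_iSup (fun k : {k : J ⊕ ℕ // k ∈ P0} => (k.1.elim (fun j => (e j).range)
              fun n => (f n).range : StarSubalgebra ℂ B)) ⟨Sum.inl j, hj⟩) ⟨y, rfl⟩
          · obtain ⟨y, rfl⟩ := hx
            have hj : (Sum.inr 0 : J ⊕ ℕ) ∈ P0 := by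
              rw [hP0]; intro n hn; exact (Sum.inr_injective hn).symm
            exact (le_iSup (fun k : {k : J ⊕ ℕ // k ∈ P0} => (k.1.elim (fun j => (e j).range)
              fun n => (f n).range : StarSubalgebra ℂ B)) ⟨Sum.inr 0, hj⟩) ⟨y, rfl⟩
        · refine le_trans ?_ (StarSubalgebra.le_topologicalClosure _)
          show (Sum.elim (fun j => (Function.update e i0 σ j).range)
            (fun n => (f (n + 1)).range) k.1 : StarSubalgebra ℂ B) ≤ (f (nn k + 1)).range
          rw [hnn k]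
          exact le_of_eq rfl
  · -- generation
    rw [eq_top_iff, ← h.gen]
    apply StarSubalgebra.topologicalClosure_minimal _
      (StarSubalgebra.isClosed_topologicalClosure _)
    rw [StarAlgebra.adjoin_le_iff]
    have hsub : ∀ x, x ∈ (StarAlgebra.adjoin ℂ
        (⋃ j, Set.range (Function.update e i0 σ j))).topologicalClosure →
        x ∈ (StarAlgebra.adjoin ℂ ((⋃ j, Set.range (Function.update e i0 σ j)) ∪
          ⋃ n, Set.range (f (n + 1)))).topologicalClosure := by
      intro x hx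
      exact StarSubalgebra.topologicalClosure_mono
        (StarAlgebra.adjoin_mono Set.subset_union_left) hx
    rintro x (hx | hx)
    · obtain ⟨j, y, rfl⟩ := Set.mem_iUnion.1 hx
      exact hsub _ (hcl (e' j y))
    · obtain ⟨n, y, rfl⟩ := Set.mem_iUnion.1 hx
      rcases n with _ | n
      · exact hsub _ (hcl (f' y))
      · apply StarSubalgebra.le_topologicalClosure
        apply StarAlgebra.subset_adjoin
        exact Or.inr (Set.mem_iUnion.2 ⟨n, y, rfl⟩)

end Pool.Agent.H923R2.FZ.T_ABSIS
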