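import Pool.Agent.H923R2.FZ.Stubs3

/-! A state is tracial on the algebra generated by free algebras on which it is tracial
(task TRC). -/

set_option autoImplicit false

noncomputable section

namespace Pool.Agent.H923R2.FZ.T_TRC

open Pool.Agent.H923R2 Pool.Agent.H923R2.FP Pool.Agent.H923R2.FZ

section

variable {A : Type} [Ring A] [StarRing A] [Algebra ℂ A] [StarModule ℂ A]
  (τ : A →ₗ[ℂ] ℂ) {K : Type} (S : K → StarSubalgebra ℂ A)

/-- alternating centred words -/
def AC (w : List (K × A)) : Prop :=
  (∀ z ∈ w, z.2 ∈ S z.1 ∧ τ z.2 = 0) ∧ w.IsChain (fun x y => x.1 ≠ y.1)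

/-- the value of a word -/
def pr (w : List (K × A)) : A := (w.map Prod.snd).prod

omit [StarRing A] [StarModule ℂ A] [Algebra ℂ A] in
lemma pr_nil : pr ([] : List (K × A)) = 1 := rfl

omit [StarRing A] [StarModule ℂ A] [Algebra ℂ A] in
lemma pr_cons (z : K × A) (w : List (K × A)) : pr (z :: w) = z.2 * pr w := by
  simp [pr]

omit [StarRing A] [StarModule ℂ A] [Algebra ℂ A] in
lemma pr_append (w w' : List (K × A)) : pr (w ++ w') = pr w * pr w' := by
  simp [pr]

variable {τ S}

lemma AC_nil : AC τ S [] := ⟨by simp, List.IsChain.nil⟩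

lemma AC_cons {z : K × A} {w : List (K × A)} :
    AC τ S (z :: w) ↔ (z.2 ∈ S z.1 ∧ τ z.2 = 0) ∧ (∀ y ∈ w.head?, z.1 ≠ y.1) ∧ AC τ S w := by
  unfold AC
  rw [List.isChain_cons, List.forall_mem_cons]
  tauto

lemma AC_reverse {w : List (K × A)} (h : AC τ S w) : AC τ S w.reverse := by
  refine ⟨fun z hz => h.1 z (List.mem_reverse.1 hz), ?_⟩
  rw [List.isChain_reverse]
  exact h.2.imp fun x y hxy => hxy.symm

lemma AC_glue {u v : List (K × A)} (hu : AC τ S u) (hv : AC τ S v)
    (h : ∀ x ∈ u.head?, ∀ y ∈ v.head?, x.1 ≠ y.1) : AC τ S (u.reverse ++ v) := by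
  refine ⟨fun z hz => ?_, ?_⟩
  · rcases List.mem_append.1 hz with h1 | h1
    · exact hu.1 z (List.mem_reverse.1 h1)
    · exact hv.1 z h1
  · rw [List.isChain_append]
    refine ⟨(AC_reverse hu).2, hv.2, ?_⟩
    intro x hx y hy
    rw [List.getLast?_reverse] at hx
    exact h x hx y hy

/-- centring -/
def ct (τ : A →ₗ[ℂ] ℂ) (c : A) : A := c - τ c • (1 : A)

lemma ct_mem (h1 : τ 1 = 1) {k : K} {c : A} (hc : c ∈ S k) : ct τ c ∈ S k ∧ τ (ct τ c) = 0 := by
  constructor
  · exact sub_mem hc (SMulMemClass.smul_mem (τ c) (one_mem (S k)))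
  · simp [ct, h1]

omit [StarRing A] [StarModule ℂ A] in
lemma eq_ct (c : A) : c = ct τ c + τ c • (1 : A) := by simp [ct]

open Classical in
/-- the pairing of two words -/
def ph (τ : A →ₗ[ℂ] ℂ) : List (K × A) → List (K × A) → ℂ
  | [], [] => 1
  | a :: u, b :: v => (if a.1 = b.1 then τ (a.2 * b.2) else 0) * ph τ u v
  | [], _ :: _ => 0
  | _ :: _, [] => 0

omit [StarRing A] [StarModule ℂ A] in
lemma ph_len (u : List (K × A)) : ∀ v : List (K × A), u.length ≠ v.length → ph τ u v = 0 := by
  induction u with
  | nil =>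
    intro v h
    cases v with
    | nil => simp at h
    | cons b v => rfl
  | cons a u ih =>
    intro v h
    cases v with
    | nil => rfl
    | cons b v =>
      rw [ph, ih v (by simpa using h), mul_zero]

omit [StarRing A] [StarModule ℂ A] in
lemma ph_append (u u' v' : List (K × A)) : ∀ v : List (K × A), u.length = v.length →
    ph τ (u ++ u') (v ++ v') = ph τ u v * ph τ u' v' := by
  induction u with
  | nil =>
    intro v h
    cases v with
    | nil => simp [ph]
    | cons b v => simp at h
  | cons a u ih =>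
    intro v h
    cases v with
    | nil => simp at h
    | cons b v =>
      rw [List.cons_append, List.cons_append, ph, ph, ih v (by simpa using h), mul_assoc]

omit [StarRing A] [StarModule ℂ A] in
lemma ph_reverse (u : List (K × A)) : ∀ v : List (K × A),
    ph τ u.reverse v.reverse = ph τ u v := by
  induction u with
  | nil =>
    intro v
    cases v with
    | nil => rfl
    | cons b v => rw [ph_len _ _ (by simp), ph_len _ _ (by simp)]
  | cons a u ih =>
    intro v
    cases v with
    | nil => rw [ph_len _ _ (by simp), ph_len _ _ (by simp)]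
    | cons b v =>
      by_cases h : u.length = v.length
      · rw [List.reverse_cons, List.reverse_cons, ph_append _ _ _ _ (by simpa using h), ih, ph, ph,
          ph, mul_one, mul_comm]
      · rw [ph_len _ _ (by simpa using h), ph_len _ _ (by simpa using h)]

lemma ph_symm (hT : ∀ k, ∀ x ∈ S k, ∀ y ∈ S k, τ (x * y) = τ (y * x)) (u : List (K × A)) :
    (∀ z ∈ u, z.2 ∈ S z.1) → ∀ v : List (K × A), (∀ z ∈ v, z.2 ∈ S z.1) →
    ph τ u v = ph τ v u := by
  induction u with
  | nil =>
    intro _ v _
    cases v with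
    | nil => rfl
    | cons b v => rfl
  | cons a u ih =>
    intro hu v hv
    cases v with
    | nil => rfl
    | cons b v =>
      rw [List.forall_mem_cons] at hu hv
      rw [ph, ph, ih hu.2 v hv.2]
      congr 1
      by_cases h : a.1 = b.1
      · rw [if_pos h, if_pos h.symm]
        exact hT a.1 _ hu.1 _ (by rw [h]; exact hv.1)
      · rw [if_neg h, if_neg (fun h' => h h'.symm)]

/-- the pairing formula -/
lemma pairing (h1 : τ 1 = 1)
    (hF : ∀ w : List (K × A), w ≠ [] → (∀ z ∈ w, z.2 ∈ S z.1 ∧ τ z.2 = 0) →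
      w.IsChain (fun x y => x.1 ≠ y.1) → τ ((w.map Prod.snd).prod) = 0)
    (u : List (K × A)) : AC τ S u → ∀ v : List (K × A), AC τ S v →
    τ (pr u.reverse * pr v) = ph τ u v := by
  induction u with
  | nil =>
    intro _ v hv
    cases v with
    | nil => simp [pr, ph, h1]
    | cons b v =>
      rw [List.reverse_nil, pr_nil, one_mul]
      exact hF (b :: v) (by simp) hv.1 hv.2
  | cons a u ih =>
    intro hu v hv
    cases v with
    | nil =>
      have h2 := AC_reverse hu
      rw [pr_nil, mul_one]
      exact hF _ (by simp) h2.1 h2.2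
    | cons b v =>
      by_cases hab : a.1 = b.1
      · rw [ph, if_pos hab]
        rw [AC_cons] at hu hv
        have e1 : pr (a :: u).reverse * pr (b :: v) = pr u.reverse * ((a.2 * b.2) * pr v) := by
          rw [List.reverse_cons, pr_append, pr_cons, pr_cons, pr_nil, mul_one]
          simp only [mul_assoc]
        have hc : a.2 * b.2 ∈ S a.1 := mul_mem hu.1.1 (by rw [hab]; exact hv.1.1)
        have h3 := ct_mem (τ := τ) h1 hc
        have hw : AC τ S (u.reverse ++ (a.1, ct τ (a.2 * b.2)) :: v) := by
          refine AC_glue hu.2.2 (AC_cons.2 ⟨h3, ?_, hv.2.2⟩) ?_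
          · intro y hy
            rw [hab]
            exact hv.2.1 y hy
          · intro x hx y hy
            simp only [List.head?_cons, Option.mem_def, Option.some.injEq] at hy
            rw [← hy]
            exact (hu.2.1 x hx).symm
        have h4 := hF _ (by simp) hw.1 hw.2
        have h5 : τ (pr u.reverse * (ct τ (a.2 * b.2) * pr v)) = 0 := by
          rw [← h4]
          congr 1
          rw [← pr, pr_append, pr_cons]
        have e2 : pr u.reverse * ((a.2 * b.2) * pr v) =
            pr u.reverse * (ct τ (a.2 * b.2) * pr v) + τ (a.2 * b.2) • (pr u.reverse * pr v) := by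
          conv_lhs => rw [eq_ct (τ := τ) (a.2 * b.2)]
          rw [add_mul, mul_add, smul_mul_assoc, one_mul, mul_smul_comm]
        rw [e1, e2, map_add, h5, zero_add, map_smul, ih hu.2.2 v hv.2.2, smul_eq_mul]
      · rw [ph, if_neg hab, zero_mul, ← pr_append]
        have hw : AC τ S ((a :: u).reverse ++ (b :: v)) := by
          refine AC_glue hu hv ?_
          intro x hx y hy
          simp only [List.head?_cons, Option.mem_def, Option.some.injEq] at hx hy
          rw [← hx, ← hy]
          exact hab
        exact hF _ (by simp) hw.1 hw.2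

variable (τ S) in
/-- the span of the alternating centred words -/
def MM : Submodule ℂ A := Submodule.span ℂ {x | ∃ w : List (K × A), AC τ S w ∧ pr w = x}

lemma pr_mem {w : List (K × A)} (hw : AC τ S w) : pr w ∈ MM τ S :=
  Submodule.subset_span ⟨w, hw, rfl⟩

lemma mul_pr_mem (h1 : τ 1 = 1) {k : K} {c : A} (hc : c ∈ S k) {w : List (K × A)}
    (hw : AC τ S w) (hk : ∀ y ∈ w.head?, k ≠ y.1) : c * pr w ∈ MM τ S := by
  have e : c * pr w = pr ((k, ct τ c) :: w) + τ c • pr w := by
    rw [pr_cons]
    conv_lhs => rw [eq_ct (τ := τ) c]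
    rw [add_mul, smul_mul_assoc, one_mul]
  rw [e]
  exact add_mem (pr_mem (AC_cons.2 ⟨ct_mem h1 hc, hk, hw⟩)) (Submodule.smul_mem _ _ (pr_mem hw))

lemma mul_mem' (h1 : τ 1 = 1) {k : K} {c : A} (hc : c ∈ S k) {m : A} (hm : m ∈ MM τ S) :
    c * m ∈ MM τ S := by
  induction hm using Submodule.span_induction with
  | mem x hx =>
    obtain ⟨w, hw, rfl⟩ := hx
    cases w with
    | nil => exact mul_pr_mem h1 hc hw (by simp)
    | cons b w =>
      by_cases hk : k = b.1
      · rw [AC_cons] at hw
        rw [pr_cons, ← mul_assoc]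
        refine mul_pr_mem (k := k) h1 (mul_mem hc (by rw [hk]; exact hw.1.1)) hw.2.2 ?_
        intro y hy
        rw [hk]
        exact hw.2.1 y hy
      · refine mul_pr_mem h1 hc hw ?_
        intro y hy
        simp only [List.head?_cons, Option.mem_def, Option.some.injEq] at hy
        rw [← hy]
        exact hk
  | zero => rw [mul_zero]; exact zero_mem _
  | add x y _ _ hx hy => rw [mul_add]; exact add_mem hx hy
  | smul a x _ hx => rw [mul_smul_comm]; exact Submodule.smul_mem _ _ hx

variable (τ S) in
/-- the left multipliers of the span -/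
def NN : StarSubalgebra ℂ A where
  carrier := {x | ∀ m ∈ MM τ S, x * m ∈ MM τ S ∧ star x * m ∈ MM τ S}
  mul_mem' := by
    intro x y hx hy m hm
    refine ⟨?_, ?_⟩
    · rw [mul_assoc]
      exact (hx _ (hy m hm).1).1
    · rw [star_mul, mul_assoc]
      exact (hy _ (hx m hm).2).2
  add_mem' := by
    intro x y hx hy m hm
    refine ⟨?_, ?_⟩
    · rw [add_mul]
      exact add_mem (hx m hm).1 (hy m hm).1
    · rw [star_add, add_mul]
      exact add_mem (hx m hm).2 (hy m hm).2
  algebraMap_mem' := by
    intro r m hm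
    refine ⟨?_, ?_⟩
    · rw [← Algebra.smul_def]
      exact Submodule.smul_mem _ _ hm
    · rw [← algebraMap_star_comm, ← Algebra.smul_def]
      exact Submodule.smul_mem _ _ hm
  star_mem' := by
    intro x hx m hm
    refine ⟨(hx m hm).2, ?_⟩
    rw [star_star]
    exact (hx m hm).1

lemma iSup_le_MM (h1 : τ 1 = 1) {x : A} (hx : x ∈ ⨆ k, S k) : x ∈ MM τ S := by
  have h2 : (⨆ k, S k) ≤ NN τ S := by
    refine iSup_le fun k y hy m hm => ?_
    exact ⟨mul_mem' h1 hy hm, mul_mem' h1 (star_mem hy) hm⟩
  have h3 := (h2 hx (pr []) (pr_mem AC_nil)).1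
  rwa [pr_nil, mul_one] at h3

end

theorem t_TRC : S_TRC := by
  intro A _ _ _ _ τ h1 K S hF hT x hx y hy
  have hx' := iSup_le_MM h1 hx
  have hy' := iSup_le_MM h1 hy
  have key : ∀ w v : List (K × A), AC τ S w → AC τ S v →
      τ (pr w * pr v) = τ (pr v * pr w) := by
    intro w v hw hv
    have e1 := pairing h1 hF w.reverse (AC_reverse hw) v hv
    have e2 := pairing h1 hF v.reverse (AC_reverse hv) w hw
    rw [List.reverse_reverse] at e1 e2
    rw [e1, e2, ← ph_reverse, List.reverse_reverse]
    exact ph_symm hT w (fun z hz => (hw.1 z hz).1) v.reverse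
      (fun z hz => ((AC_reverse hv).1 z hz).1)
  have step : ∀ w : List (K × A), AC τ S w → τ (pr w * y) = τ (y * pr w) := by
    intro w hw
    clear hy
    induction hy' using Submodule.span_induction with
    | mem b hb =>
      obtain ⟨v, hv, rfl⟩ := hb
      exact key w v hw hv
    | zero => simp
    | add a b _ _ ha hb => rw [mul_add, add_mul, map_add, map_add, ha, hb]
    | smul r b _ hb => rw [mul_smul_comm, smul_mul_assoc, map_smul, map_smul, hb]
  clear hx
  induction hx' using Submodule.span_induction with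
  | mem b hb =>
    obtain ⟨v, hv, rfl⟩ := hb
    exact step v hv
  | zero => simp
  | add a b _ _ ha hb => rw [mul_add, add_mul, map_add, map_add, ha, hb]
  | smul r b _ hb => rw [mul_smul_comm, smul_mul_assoc, map_smul, map_smul, hb]

end Pool.Agent.H923R2.FZ.T_TRC
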