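import Pool.Agent.H961R2.Lev.Stubs

/-!
P7: growth of the Levin function in horizontal strips.
-/

open MeasureTheory Set Filter Topology InnerProductSpace Complex

namespace H61Lev

open H961Lev

theorem posHalf_of_levin {E : Set ℝ} {U : ℂ → ℝ} (hU : IsLevin E U) : PosHalf U := by
  refine ⟨hU.cont.continuousOn, ?_, ?_⟩
  · intro z hz
    apply hU.harm z
    rintro ⟨x, -, rfl⟩
    simp at hz
  · intro z _
    by_cases h : z ∈ ((fun x : ℝ => (x : ℂ)) '' E)
    · obtain ⟨x, hx, rfl⟩ := h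
      exact (hU.zero x hx).ge
    · exact (hU.pos z h).le

theorem levin_nonneg {E : Set ℝ} {U : ℂ → ℝ} (hU : IsLevin E U) (z : ℂ) : 0 ≤ U z := by
  by_cases h : z ∈ ((fun x : ℝ => (x : ℂ)) '' E)
  · obtain ⟨x, hx, rfl⟩ := h
    exact (hU.zero x hx).ge
  · exact (hU.pos z h).le

/-- The weighted bound near the real line. -/
theorem weighted (h4 : S_P4) {E : Set ℝ} {U : ℂ → ℝ} (hU : IsLevin E U) (Y : ℝ) (hY : 0 < Y) :
    ∃ C : ℝ, 0 ≤ C ∧ ∀ z : ℂ, |z.im| ≤ Y → |z.im| * U z ≤ C * (1 + z.re ^ 2) := by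
  have hP := posHalf_of_levin hU
  obtain ⟨hI, hR⟩ := h4 U 1 hP hU.norm
  set J : ℝ := ∫ t : ℝ, U (t : ℂ) / (1 + t ^ 2) with hJ
  have hJ0 : 0 ≤ J := integral_nonneg fun t => div_nonneg (levin_nonneg hU _) (by positivity)
  refine ⟨Y ^ 2 + (2 + 2 * Y ^ 2) * J, by positivity, ?_⟩
  have key : ∀ x y : ℝ, 0 < y → y ≤ Y →
      y * U (x + y * I) ≤ (Y ^ 2 + (2 + 2 * Y ^ 2) * J) * (1 + x ^ 2) := by
    intro x y hy hyY
    obtain ⟨h1, h2⟩ := hR x y hy
    have h3 : y * ∫ t : ℝ, PK y (x - t) * U (t : ℂ) ≤ (2 + 2 * Y ^ 2) * (1 + x ^ 2) * J := by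
      rw [← integral_const_mul, hJ, ← integral_const_mul]
      apply integral_mono (h1.const_mul y) (hI.const_mul _)
      intro t
      show y * (PK y (x - t) * U (t : ℂ)) ≤ (2 + 2 * Y ^ 2) * (1 + x ^ 2) * (U (t : ℂ) / (1 + t ^ 2))
      have h5 : y * PK y (x - t) ≤ (2 + 2 * Y ^ 2) * (1 + x ^ 2) / (1 + t ^ 2) := by
        rw [PK]
        have h6 : y * (y / (Real.pi * ((x - t) ^ 2 + y ^ 2))) ≤ y ^ 2 / ((x - t) ^ 2 + y ^ 2) := by
          rw [← mul_div_assoc, ← sq]
          apply div_le_div_of_nonneg_left (by positivity) (by positivity)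
          have : (1 : ℝ) ≤ Real.pi := by linarith [Real.pi_gt_three]
          have h0 : 0 ≤ (x - t) ^ 2 + y ^ 2 := by positivity
          nlinarith
        refine h6.trans ?_
        rw [div_le_div_iff₀ (by positivity) (by positivity)]
        have hy2 : y ^ 2 ≤ Y ^ 2 := by nlinarith
        have a1 : t ^ 2 ≤ 2 * x ^ 2 + 2 * (x - t) ^ 2 := by nlinarith [sq_nonneg (2 * x - t)]
        have a2 : y ^ 2 * (1 + t ^ 2) ≤ y ^ 2 * (1 + 2 * x ^ 2 + 2 * (x - t) ^ 2) := by
          apply mul_le_mul_of_nonneg_left _ (sq_nonneg y)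
          linarith
        have a3 : y ^ 2 * (x - t) ^ 2 ≤ Y ^ 2 * (x - t) ^ 2 :=
          mul_le_mul_of_nonneg_right hy2 (sq_nonneg _)
        have b1 : 0 ≤ x ^ 2 * (x - t) ^ 2 := by positivity
        have b2 : 0 ≤ Y ^ 2 * x ^ 2 * (x - t) ^ 2 := by positivity
        have b3 : 0 ≤ Y ^ 2 * x ^ 2 * y ^ 2 := by positivity
        have b4 : 0 ≤ Y ^ 2 * y ^ 2 := by positivity
        have b5 : 0 ≤ (x - t) ^ 2 := by positivity
        have b6 : 0 ≤ y ^ 2 := by positivity
        nlinarith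
      calc y * (PK y (x - t) * U (t : ℂ)) = (y * PK y (x - t)) * U (t : ℂ) := by ring
        _ ≤ ((2 + 2 * Y ^ 2) * (1 + x ^ 2) / (1 + t ^ 2)) * U (t : ℂ) :=
            mul_le_mul_of_nonneg_right h5 (levin_nonneg hU _)
        _ = _ := by ring
    rw [h2, mul_add]
    have h7 : y * (1 * y) ≤ Y ^ 2 * (1 + x ^ 2) := by
      have : y * y ≤ Y ^ 2 := by nlinarith
      nlinarith [mul_nonneg (sq_nonneg Y) (sq_nonneg x)]
    calc y * (1 * y) + y * ∫ t : ℝ, PK y (x - t) * U (t : ℂ) ≤
          Y ^ 2 * (1 + x ^ 2) + (2 + 2 * Y ^ 2) * (1 + x ^ 2) * J := add_le_add h7 h3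
      _ = _ := by ring
  intro z hz
  rcases lt_trichotomy z.im 0 with h | h | h
  · have h1 := key z.re (-z.im) (by linarith) (by rwa [abs_of_neg h] at hz)
    have h2 : ((z.re : ℂ) + ((-z.im : ℝ) : ℂ) * I) = (starRingEnd ℂ) z := by
      apply Complex.ext <;> simp
    rw [h2, hU.symm] at h1
    rwa [abs_of_neg h]
  · rw [h, abs_zero, zero_mul]
    positivity
  · have h1 := key z.re z.im h (by rwa [abs_of_pos h] at hz)
    rw [Complex.re_add_im] at h1
    rwa [abs_of_pos h]

/-- the barrier -/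
noncomputable def bar (a : ℝ) (z : ℂ) : ℝ :=
  (((a : ℂ) + 1 - z)⁻¹).re + ((z - a + 1)⁻¹).re

theorem bar_eq (a : ℝ) (z : ℂ) : bar a z =
    (1 - (z.re - a)) / ((1 - (z.re - a)) ^ 2 + z.im ^ 2) +
    (1 + (z.re - a)) / ((1 + (z.re - a)) ^ 2 + z.im ^ 2) := by
  rw [bar, Complex.inv_re, Complex.inv_re, Complex.normSq_apply, Complex.normSq_apply]
  simp only [Complex.add_re, Complex.sub_re, Complex.ofReal_re, Complex.one_re, Complex.add_im,
    Complex.sub_im, Complex.ofReal_im, Complex.one_im]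
  congr 1
  · congr 1 <;> ring
  · congr 1 <;> ring

theorem diamond (h5 : S_P5) {E : Set ℝ} {U : ℂ → ℝ} (hU : IsLevin E U) (a M : ℝ) (hM : 0 < M)
    (hb : ∀ z : ℂ, |z.re - a| + |z.im| ≤ 1 → |z.im| * U z ≤ M) (y : ℝ) (hy : |y| ≤ 1 / 2) :
    U (a + y * I) ≤ 4 * M := by
  -- compact diamond
  set D : Set ℂ := {z : ℂ | |z.re - a| + |z.im| ≤ 1} with hD
  have hDc : IsClosed D := by
    rw [hD]
    exact isClosed_le (by fun_prop) continuous_const
  have hDb : Bornology.IsBounded D := by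
    apply (Metric.isBounded_iff_subset_closedBall (a : ℂ)).2
    refine ⟨1, fun z hz => ?_⟩
    rw [mem_closedBall_iff_norm]
    have h1 := Complex.norm_le_abs_re_add_abs_im (z - (a : ℂ))
    simp only [Complex.sub_re, Complex.sub_im, Complex.ofReal_re, Complex.ofReal_im, sub_zero] at h1
    exact h1.trans hz
  have hDk : IsCompact D := Metric.isCompact_of_isClosed_isBounded hDc hDb
  obtain ⟨S, hS⟩ := hDk.bddAbove_image hU.cont.continuousOn
  have hS' : ∀ z ∈ D, U z ≤ S := fun z hz => hS ⟨z, hz, rfl⟩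
  -- the cut-off
  obtain ⟨ρ, hρ0, hρ1, hρS⟩ : ∃ ρ : ℝ, 0 < ρ ∧ ρ ≤ 1 / 4 ∧ S ≤ M / ρ := by
    refine ⟨min (1 / 4) (M / (|S| + 1)), by positivity, min_le_left _ _, ?_⟩
    have hpos : 0 < min (1 / 4 : ℝ) (M / (|S| + 1)) := by positivity
    rw [le_div_iff₀ hpos]
    have h1 : min (1 / 4 : ℝ) (M / (|S| + 1)) ≤ M / (|S| + 1) := min_le_right _ _
    have h2 : S * min (1 / 4 : ℝ) (M / (|S| + 1)) ≤ |S| * (M / (|S| + 1)) := by
      calc _ ≤ |S| * min (1 / 4 : ℝ) (M / (|S| + 1)) :=
            mul_le_mul_of_nonneg_right (le_abs_self S) hpos.le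
        _ ≤ _ := mul_le_mul_of_nonneg_left h1 (abs_nonneg S)
    refine h2.trans ?_
    rw [← mul_div_assoc, div_le_iff₀ (by positivity)]
    nlinarith [abs_nonneg S]
  set K : Set ℂ := {z : ℂ | |z.re - a| + |z.im| ≤ 1 ∧ |z.re - a| ≤ 1 - ρ} with hK
  set Ω : Set ℂ := {z : ℂ | |z.re - a| + |z.im| < 1 ∧ |z.re - a| < 1 - ρ} with hΩ
  have hKc : IsCompact K := by
    have h1 : K = D ∩ {z : ℂ | |z.re - a| ≤ 1 - ρ} := by
      ext z; simp [hK, hD]
    rw [h1]
    exact hDk.inter_right (isClosed_le (by fun_prop) continuous_const)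
  have hΩo : IsOpen Ω := by
    have h1 : Ω = {z : ℂ | |z.re - a| + |z.im| < 1} ∩ {z : ℂ | |z.re - a| < 1 - ρ} := by
      ext z; simp [hΩ]
    rw [h1]
    exact (isOpen_lt (by fun_prop) continuous_const).inter (isOpen_lt (by fun_prop) continuous_const)
  have hΩK : Ω ⊆ K := fun z hz => ⟨hz.1.le, hz.2.le⟩
  -- positivity of real parts
  have hre : ∀ z ∈ K, ρ ≤ 1 - (z.re - a) ∧ ρ ≤ 1 + (z.re - a) := by
    intro z hz
    have := abs_le.1 hz.2
    constructor <;> linarith
  have hne1 : ∀ z ∈ K, (a : ℂ) + 1 - z ≠ 0 := by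
    intro z hz h
    have h1 := congrArg Complex.re h
    simp at h1
    linarith [(hre z hz).1]
  have hne2 : ∀ z ∈ K, z - a + 1 ≠ 0 := by
    intro z hz h
    have h1 := congrArg Complex.re h
    simp at h1
    linarith [(hre z hz).2]
  have hbar0 : ∀ z ∈ K, 0 ≤ bar a z := by
    intro z hz
    rw [bar_eq]
    have h1 := hre z hz
    apply add_nonneg <;> apply div_nonneg <;> first | positivity | linarith
  have hcont : ContinuousOn (fun z => U z - (2 * M) * bar a z) K := by
    apply hU.cont.continuousOn.sub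
    apply ContinuousOn.mul continuousOn_const
    unfold bar
    apply ContinuousOn.add
    · exact Complex.continuous_re.comp_continuousOn
        (ContinuousOn.inv₀ (by fun_prop) hne1)
    · exact Complex.continuous_re.comp_continuousOn
        (ContinuousOn.inv₀ (by fun_prop) hne2)
  have hharm : ∀ z ∈ Ω, 0 < U z - (2 * M) * bar a z →
      HarmonicAt (fun z => U z - (2 * M) * bar a z) z := by
    intro z hz hpos
    have hzK := hΩK hz
    have h1 : 0 < U z := by
      have := mul_nonneg (by positivity : (0 : ℝ) ≤ 2 * M) (hbar0 z hzK)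
      linarith
    have h2 : HarmonicAt U z := by
      apply hU.harm z
      rintro ⟨x, hx, rfl⟩
      rw [hU.zero x hx] at h1
      exact lt_irrefl _ h1
    have h3 : HarmonicAt (fun z : ℂ => (((a : ℂ) + 1 - z)⁻¹).re) z := by
      apply AnalyticAt.harmonicAt_re
      exact AnalyticAt.inv (by fun_prop) (hne1 z hzK)
    have h4 : HarmonicAt (fun z : ℂ => ((z - a + 1)⁻¹).re) z := by
      apply AnalyticAt.harmonicAt_re
      exact AnalyticAt.inv (by fun_prop) (hne2 z hzK)
    have h6 : HarmonicAt (bar a) z := h3.add h4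
    have h7 := h2.sub (h6.const_smul (c := 2 * M))
    exact h7
  have hbd : ∀ z ∈ K \ Ω, U z - (2 * M) * bar a z ≤ 0 := by
    rintro z ⟨hzK, hzΩ⟩
    have h1 := hre z hzK
    have hzD : z ∈ D := hzK.1
    by_cases h2 : |z.re - a| = 1 - ρ
    · -- vertical sides
      have him : |z.im| ≤ ρ := by have := hzK.1; linarith
      have him2 : z.im ^ 2 ≤ ρ ^ 2 := by
        rw [← sq_abs z.im]; exact pow_le_pow_left₀ (abs_nonneg _) him 2
      have h3 : 1 / (2 * ρ) ≤ bar a z := by
        have key : 1 / (2 * ρ) ≤ ρ / (ρ ^ 2 + z.im ^ 2) := by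
          rw [div_le_div_iff₀ (by positivity) (by positivity)]
          nlinarith
        rw [bar_eq]
        rcases abs_cases (z.re - a) with ⟨h3, h4⟩ | ⟨h3, h4⟩
        · have e : 1 - (z.re - a) = ρ := by linarith
          rw [e]
          have : 0 ≤ (1 + (z.re - a)) / ((1 + (z.re - a)) ^ 2 + z.im ^ 2) :=
            div_nonneg (by linarith) (by positivity)
          linarith
        · have e : 1 + (z.re - a) = ρ := by linarith
          rw [e]
          have : 0 ≤ (1 - (z.re - a)) / ((1 - (z.re - a)) ^ 2 + z.im ^ 2) :=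
            div_nonneg (by linarith) (by positivity)
          linarith
      have h4 : U z ≤ M / ρ := (hS' z hzD).trans hρS
      have h6 : (2 * M) * (1 / (2 * ρ)) ≤ (2 * M) * bar a z :=
        mul_le_mul_of_nonneg_left h3 (by positivity)
      have h7 : (2 * M) * (1 / (2 * ρ)) = M / ρ := by field_simp
      linarith
    · -- slanted sides
      have h3 : |z.re - a| < 1 - ρ := lt_of_le_of_ne hzK.2 h2
      have h4 : |z.re - a| + |z.im| = 1 := by
        by_contra h
        exact hzΩ ⟨lt_of_le_of_ne hzK.1 h, h3⟩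
      have him : 0 < |z.im| := by linarith
      have h6 : 1 / (2 * |z.im|) ≤ bar a z := by
        have key : 1 / (2 * |z.im|) = |z.im| / (|z.im| ^ 2 + z.im ^ 2) := by
          rw [← sq_abs z.im]
          field_simp
          norm_num
        rw [bar_eq]
        rcases abs_cases (z.re - a) with ⟨h7, h8⟩ | ⟨h7, h8⟩
        · have e : 1 - (z.re - a) = |z.im| := by linarith
          rw [e, key]
          have : 0 ≤ (1 + (z.re - a)) / ((1 + (z.re - a)) ^ 2 + z.im ^ 2) :=
            div_nonneg (by linarith) (by positivity)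
          linarith
        · have e : 1 + (z.re - a) = |z.im| := by linarith
          rw [e, key]
          have : 0 ≤ (1 - (z.re - a)) / ((1 - (z.re - a)) ^ 2 + z.im ^ 2) :=
            div_nonneg (by linarith) (by positivity)
          linarith
      have h7 : U z ≤ M / |z.im| := by
        rw [le_div_iff₀ him, mul_comm]
        exact hb z hzK.1
      have h8 : (2 * M) * (1 / (2 * |z.im|)) ≤ (2 * M) * bar a z :=
        mul_le_mul_of_nonneg_left h6 (by positivity)
      have h9 : (2 * M) * (1 / (2 * |z.im|)) = M / |z.im| := by field_simp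
      linarith
  have hfin := h5 K Ω (fun z => U z - (2 * M) * bar a z) hKc hΩo hΩK hcont hharm hbd
    ((a : ℂ) + y * I) (by
      constructor
      · simp; linarith
      · simp; linarith)
  have hbarle : bar a ((a : ℂ) + y * I) ≤ 2 := by
    rw [bar_eq]
    simp only [Complex.add_re, Complex.ofReal_re, Complex.mul_re, Complex.I_re, mul_zero,
      Complex.ofReal_im, Complex.I_im, mul_one, sub_self, add_zero, Complex.add_im, Complex.mul_im,
      zero_add, sub_zero]
    have h1 : (1 : ℝ) / (1 ^ 2 + y ^ 2) ≤ 1 := by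
      rw [div_le_one (by positivity)]
      nlinarith [sq_nonneg y]
    linarith
  have : (2 * M) * bar a ((a : ℂ) + y * I) ≤ (2 * M) * 2 :=
    mul_le_mul_of_nonneg_left hbarle (by positivity)
  have hfin' : U ((a : ℂ) + y * I) - (2 * M) * bar a ((a : ℂ) + y * I) ≤ 0 := hfin
  linarith

/-- growth in strips -/
theorem T_P7 : S_P4 → S_P5 → S_P7 := by
  intro h4 h5 E U _ hU Y hY
  obtain ⟨C, hC0, hC⟩ := weighted h4 hU (max Y 1) (by positivity)
  refine ⟨12 * C + 4, ?_⟩
  intro z hz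
  have hYm : Y ≤ max Y 1 := le_max_left _ _
  have h1m : (1 : ℝ) ≤ max Y 1 := le_max_right _ _
  by_cases hzi : |z.im| ≤ 1 / 2
  · have h1 := diamond h5 hU z.re (C * (1 + (|z.re| + 1) ^ 2) + 1) (by positivity) ?_ z.im hzi
    · rw [Complex.re_add_im] at h1
      refine h1.trans ?_
      have h2 : |z.re| ^ 2 = z.re ^ 2 := sq_abs _
      have h3 : 2 * |z.re| ≤ 1 + z.re ^ 2 := by nlinarith [sq_nonneg (|z.re| - 1)]
      have h6 : 1 + (|z.re| + 1) ^ 2 ≤ 3 * (1 + z.re ^ 2) := by nlinarith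
      have h7 := mul_le_mul_of_nonneg_left h6 hC0
      nlinarith [sq_nonneg z.re]
    · intro w hw
      have hwi : |w.im| ≤ 1 := by linarith [abs_nonneg (w.re - z.re)]
      have hwr : |w.re - z.re| ≤ 1 := by linarith [abs_nonneg w.im]
      have h2 := hC w (hwi.trans h1m)
      refine h2.trans ?_
      have h3 : |w.re| ≤ |z.re| + 1 := by
        have : |w.re| ≤ |w.re - z.re| + |z.re| := by
          have := abs_add_le (w.re - z.re) z.re
          simpa using this
        linarith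
      have h6 : w.re ^ 2 ≤ (|z.re| + 1) ^ 2 := by
        rw [← sq_abs w.re]; exact pow_le_pow_left₀ (abs_nonneg _) h3 2
      have h7 := mul_le_mul_of_nonneg_left (add_le_add_right h6 1) hC0
      linarith
  · push Not at hzi
    have h1 := hC z (hz.trans hYm)
    have h2 : 1 / 2 * U z ≤ |z.im| * U z :=
      mul_le_mul_of_nonneg_right hzi.le (levin_nonneg hU z)
    nlinarith [mul_nonneg hC0 (sq_nonneg z.re), sq_nonneg z.re]

end H61Lev
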