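import Pool.Agent.H923R2.FZ.JS

/-! The trace of the Jiang–Su algebra is faithful (task FTZ). -/

set_option autoImplicit false

noncomputable section

namespace Pool.Agent.H923R2.FZ.T_FTZ

open Pool.Agent.H923R2 Pool.Agent.H923R2.FP Pool.Agent.H923R2.FZ
open scoped ComplexConjugate ComplexOrder

theorem le_norm {A : Type} [CStarAlgebra A] (x : A) :
    ∃ z : A, ((‖x‖ ^ 2 : ℝ) : ℂ) • (1 : A) - star x * x = star z * z := by
  letI := CStarAlgebra.spectralOrder A
  letI := CStarAlgebra.spectralOrderedRing A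
  have h1 : star x * x ≤ algebraMap ℝ A (‖x‖ ^ 2) := CStarAlgebra.star_mul_le_algebraMap_norm_sq
  have h2 : 0 ≤ algebraMap ℝ A (‖x‖ ^ 2) - star x * x := sub_nonneg.2 h1
  obtain ⟨z, hz⟩ := CStarAlgebra.nonneg_iff_eq_star_mul_self.1 h2
  refine ⟨z, ?_⟩
  rw [← hz, Algebra.algebraMap_eq_smul_one]
  congr 1

section

variable {A : Type} [CStarAlgebra A] {τ : A →ₗ[ℂ] ℂ}

lemma str (h1 : τ 1 = 1) (hn : ∀ x, 0 ≤ τ (star x * x)) (x : A) : τ (star x) = conj (τ x) := by
  have him : ∀ x, (τ (star x * x)).im = 0 := fun x => (Complex.nonneg_iff.1 (hn x)).2.symm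
  have e1 : star (1 + x) * (1 + x) = 1 + x + star x + star x * x := by
    rw [star_add, star_one]
    noncomm_ring
  have e2 : star (1 + Complex.I • x) * (1 + Complex.I • x) =
      1 + Complex.I • x - Complex.I • star x + star x * x := by
    rw [star_add, star_one, star_smul, Complex.star_def, Complex.conj_I, add_mul, mul_add, mul_one,
      one_mul, mul_add, mul_one, smul_mul_smul_comm, neg_mul, Complex.I_mul_I, neg_neg, one_smul,
      neg_smul]
    abel
  have h2 := him (1 + x)
  have h3 := him (1 + Complex.I • x)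
  rw [e1, map_add, map_add, map_add, h1, Complex.add_im, Complex.add_im, Complex.add_im, him,
    Complex.one_im] at h2
  rw [e2, map_add, map_sub, map_add, map_smul, map_smul, h1, Complex.add_im, Complex.sub_im,
    Complex.add_im, him, Complex.one_im, smul_eq_mul, smul_eq_mul, Complex.I_mul_im,
    Complex.I_mul_im] at h3
  apply Complex.ext
  · rw [Complex.conj_re]
    linarith
  · rw [Complex.conj_im]
    linarith

lemma bound (h1 : τ 1 = 1) (hn : ∀ x, 0 ≤ τ (star x * x)) (x : A) : ‖τ x‖ ≤ ‖x‖ := by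
  have hre : ∀ x, 0 ≤ (τ (star x * x)).re := fun x => (Complex.nonneg_iff.1 (hn x)).1
  have hstr := str h1 hn
  have h2 : (τ (star x * x)).re ≤ ‖x‖ ^ 2 := by
    obtain ⟨z, hz⟩ := le_norm x
    have h3 := hre z
    rw [← hz, map_sub, map_smul, h1, smul_eq_mul, mul_one, Complex.sub_re,
      Complex.ofReal_re] at h3
    linarith
  have h3 : ‖τ x‖ ^ 2 ≤ (τ (star x * x)).re := by
    have h4 := hre (x - τ x • (1 : A))
    have e3 : star (x - τ x • (1 : A)) * (x - τ x • (1 : A)) =
        star x * x - τ x • star x - conj (τ x) • x + (conj (τ x) * τ x) • (1 : A) := by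
      rw [star_sub, star_smul, star_one, Complex.star_def, sub_mul, mul_sub, mul_sub,
        smul_mul_smul_comm, mul_one, mul_smul_comm, mul_one, smul_mul_assoc, one_mul]
      abel
    rw [e3, map_add, map_sub, map_sub, map_smul, map_smul, map_smul, h1, hstr, smul_eq_mul,
      smul_eq_mul, smul_eq_mul, mul_one, mul_comm (τ x) (conj (τ x))] at h4
    have h5 : (conj (τ x) * τ x) = ((‖τ x‖ ^ 2 : ℝ) : ℂ) := by
      rw [← Complex.normSq_eq_conj_mul_self, Complex.normSq_eq_norm_sq]
    rw [h5, sub_add_cancel, Complex.sub_re, Complex.ofReal_re] at h4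
    linarith
  exact (pow_le_pow_iff_left₀ (norm_nonneg _) (norm_nonneg _) two_ne_zero).1 (h3.trans h2)

/-- the degenerate case of the Cauchy–Schwarz inequality -/
lemma cs (h1 : τ 1 = 1) (hn : ∀ x, 0 ≤ τ (star x * x)) {x : A} (hx : τ (star x * x) = 0) (y : A) :
    τ (y * x) = 0 := by
  have hre : ∀ x, 0 ≤ (τ (star x * x)).re := fun x => (Complex.nonneg_iff.1 (hn x)).1
  obtain ⟨T, hT⟩ : ∃ T, T = τ (y * x) := ⟨_, rfl⟩
  have key : ∀ n : ℕ, 2 * (n : ℝ) * ‖T‖ ^ 2 ≤ (τ (y * star y)).re := by
    intro n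
    obtain ⟨c, hc⟩ : ∃ c : ℂ, c = -(n : ℂ) * conj T := ⟨_, rfl⟩
    have h2 := hre (star y + c • x)
    have e : star (star y + c • x) * (star y + c • x) =
        y * star y + c • (y * x) + conj c • star (y * x) + (conj c * c) • (star x * x) := by
      rw [star_add, star_star, star_smul, Complex.star_def, star_mul, add_mul, mul_add, mul_add,
        mul_smul_comm, smul_mul_assoc, smul_mul_smul_comm]
      abel
    rw [e, map_add, map_add, map_add, map_smul, map_smul, map_smul, hx, smul_zero, add_zero,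
      str h1 hn, ← hT, hc] at h2
    simp only [smul_eq_mul, map_mul, map_neg, Complex.conj_conj, Complex.conj_natCast,
      Complex.add_re] at h2
    have e1 : -(n : ℂ) * conj T * T = ((-(n : ℝ) * ‖T‖ ^ 2 : ℝ) : ℂ) := by
      rw [mul_assoc, ← Complex.normSq_eq_conj_mul_self, Complex.normSq_eq_norm_sq]
      push_cast
      ring
    have e2 : -(n : ℂ) * T * conj T = ((-(n : ℝ) * ‖T‖ ^ 2 : ℝ) : ℂ) := by
      rw [← e1]; ring
    rw [e1, e2, Complex.ofReal_re] at h2
    linarith
  rw [← hT]
  by_contra hne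
  have hpos : 0 < ‖T‖ ^ 2 := by
    have := norm_pos_iff.2 hne
    positivity
  obtain ⟨n, hn2⟩ := exists_nat_gt ((τ (y * star y)).re / ‖T‖ ^ 2)
  rw [div_lt_iff₀ hpos] at hn2
  have h3 := key n
  have h4 : (0 : ℝ) ≤ n * ‖T‖ ^ 2 := by positivity
  linarith

end

theorem t_FTZ (hT3 : FP.S_T3) : S_FTZ := by
  intro Z _ hZ t ht
  obtain ⟨h1, hc, hn⟩ := ht
  refine hT3 Z t h1 hc hn ?_
  intro x hx
  let N : TwoSidedIdeal Z := TwoSidedIdeal.mk' {x | ∀ y, t (y * x) = 0}
    (by intro y; simp)
    (by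
      intro a b ha hb y
      rw [mul_add, map_add, ha y, hb y, add_zero])
    (by
      intro a ha y
      rw [mul_neg, map_neg, ha y, neg_zero])
    (by
      intro z a ha y
      rw [← mul_assoc]
      exact ha _)
    (by
      intro a z ha y
      rw [← mul_assoc, hc, ← mul_assoc]
      exact ha _)
  have hN : ∀ a, a ∈ N ↔ ∀ y, t (y * a) = 0 := by
    intro a
    exact TwoSidedIdeal.mem_mk' _ _ _ _ _ _ _
  have hcont : Continuous t :=
    AddMonoidHomClass.continuous_of_bound t 1 (fun a => by rw [one_mul]; exact bound h1 hn a)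
  have hcl : IsClosed (N : Set Z) := by
    have e : (N : Set Z) = ⋂ y : Z, {a | t (y * a) = 0} := by
      ext a
      rw [SetLike.mem_coe, hN, Set.mem_iInter]
      rfl
    rw [e]
    exact isClosed_iInter fun y => isClosed_eq
      (hcont.comp (continuous_const.mul continuous_id)) continuous_const
  rcases hZ.simple N hcl with h | h
  · have h2 : x ∈ N := (hN x).2 (cs h1 hn hx)
    rw [h] at h2
    simpa using h2
  · exfalso
    have h2 : (1 : Z) ∈ N := by rw [h]; trivial
    have h3 := (hN 1).1 h2 1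
    rw [mul_one, h1] at h3
    exact one_ne_zero h3

end Pool.Agent.H923R2.FZ.T_FTZ
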